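import Pool.Agent.Lib.Pa76659P.Adv

/-!
The adversary theorem for the refined classes with two kinds of auxiliary trees.
-/

set_option maxHeartbeats 4000000

namespace Pool.Agent.Lib.Pa76659L

open Pool.Agent.Lib.Pa76659 Pool.Agent.Lib.Pa76659.Switch Pool.Agent.Lib.Pa76659.Hier
  Pool.Agent.Lib.Pa76659P

/-- among more than `L.length` numbers `b` there is one such that no `[y, b, r]` is in `L` -/
theorem exists_fresh2 (L : List (List ℕ)) (n : ℕ) (hn : L.length < n) (r : ℕ) :
    ∃ b < n, ∀ y, [y, b, r] ∉ L := by
  by_contra hcon
  push Not at hcon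
  have h1 : (Finset.range n) ⊆ L.toFinset.image (fun p => p.getD 1 0) := by
    intro b hb
    obtain ⟨y, hy⟩ := hcon b (Finset.mem_range.1 hb)
    rw [Finset.mem_image]
    exact ⟨[y, b, r], List.mem_toFinset.2 hy, by simp⟩
  have h2 := Finset.card_le_card h1
  rw [Finset.card_range] at h2
  have h3 := (Finset.card_image_le (s := L.toFinset) (f := fun p : List ℕ => p.getD 1 0)).trans
    (List.toFinset_card_le L)
  omega

theorem tr_two_false (m : ℕ → ℕ) (x : List ℕ → Bool) (u : List ℕ)
    (h : ∀ b, tr m 1 x (b :: u) = true) : tr m 2 x u = false := by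
  cases hc : tr m 2 x u
  · rfl
  · rw [tr] at hc
    simp only [decide_eq_true_eq] at hc
    obtain ⟨i, _, hi⟩ := hc
    rw [h i] at hi
    simp at hi

theorem tr_two_true (m : ℕ → ℕ) (x : List ℕ → Bool) (u : List ℕ) {b : ℕ} (hb : b < m 1)
    (h : ∀ y, x (y :: b :: u) = true) : tr m 2 x u = true := by
  rw [tr]
  simp only [decide_eq_true_eq]
  exact ⟨b, hb, tr_one_false m x (b :: u) h⟩

theorem tr_two_congr (m : ℕ → ℕ) (x x' : List ℕ → Bool) (u : List ℕ)
    (h : ∀ y b, x (y :: b :: u) = x' (y :: b :: u)) : tr m 2 x u = tr m 2 x' u := by
  rw [tr, tr]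
  congr 1
  apply propext
  constructor
  · rintro ⟨b, hb, h1⟩
    exact ⟨b, hb, by rw [← tr_one_congr m x x' (b :: u) (fun y => h y b)]; exact h1⟩
  · rintro ⟨b, hb, h1⟩
    exact ⟨b, hb, by rw [tr_one_congr m x x' (b :: u) (fun y => h y b)]; exact h1⟩

/-- The main tree (index `0`) has height `k + 2`; for `1 ≤ c < n` the pair of trees `3c`, `3c + 1`
of height `k + 1` carries (as exclusive or) an arbitrary content which depends on the earlier
trees, and the tree `3c + 2` of height `k + 2` carries the same content. A depth `k + 1` circuit
does not compute the value of the main tree. -/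
theorem advDelta3 (k w t R W n : ℕ) (hW : W ≤ 2 ^ R) (hn : 3 * n ≤ W) (m : ℕ → ℕ)
    (hm : ∀ i ≤ k + 1, MD k w t R ≤ m i ∧ m i ≤ W)
    (f : (List ℕ → Bool) → Bool) (hf : IsC Set.univ w t (k + 1) f)
    (cont : ℕ → (List ℕ → Bool) → Bool)
    (hcont : ∀ c x x', AgreeBelow (3 * c) x x' → cont c x = cont c x') :
    ∃ x : List ℕ → Bool, (∀ c, 1 ≤ c → c < n →
        xor (tr m (k + 1) x [3 * c]) (tr m (k + 1) x [3 * c + 1]) = cont c x ∧
        tr m (k + 2) x [3 * c + 2] = cont c x) ∧
      f x ≠ tr m (k + 2) x [0] := by
  classical
  obtain ⟨s, m', sub, h1, h2, h3, h4⟩ := rounds w R W (k + 3) 0 1 hW (fun s => s + 1) 2 k t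
    (fun r => if r = 0 ∨ r % 3 = 2 then k + 3 else k + 2) m
    (by intro r; split_ifs <;> omega) (by
      intro i hi
      exact hm i (by omega)) (ι := Unit) (by simp) (fun _ => f) (fun _ => hf)
  have hf' : IsC Set.univ w s 1 (fun x => f (sub x)) := h1 ()
  have hm0 : s + 1 ≤ m' 0 := (h2 0 (by omega)).1
  have hm1 : s + 1 ≤ m' 1 := (h2 1 (by omega)).1
  have hW0 : 0 < W := by
    have := (h2 0 (by omega)).2
    omega
  have e0 : ∀ x r, (r = 0 ∨ r % 3 = 2) → r < W → tr m (k + 2) (sub x) [r] = tr m' 2 x [r] := by
    intro x r hr hrW
    have h5 := h3 x r hrW 2 (by rw [if_pos hr]; omega)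
    have h6 : 2 + k = k + 2 := by omega
    rwa [h6] at h5
  have e1 : ∀ x r, ¬ (r = 0 ∨ r % 3 = 2) → r < W →
      tr m (k + 1) (sub x) [r] = tr m' 1 x [r] := by
    intro x r hr hrW
    have h5 := h3 x r hrW 1 (by rw [if_neg hr]; omega)
    have h6 : 1 + k = k + 1 := by omega
    rwa [h6] at h5
  -- the first world
  have build1 : ∀ N : ℕ, 1 ≤ N → ∃ x : List ℕ → Bool,
      (∀ (p : List ℕ) (r : ℕ), p.getLast? = some r → r < 3 ∨ 3 * N ≤ r → x p = true) ∧
      (∀ c, 1 ≤ c → c < N → tr m' 1 x [3 * c] = cont c (sub x) ∧
        (∀ y, x [y, 3 * c + 1] = true) ∧ tr m' 2 x [3 * c + 2] = cont c (sub x)) := by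
    intro N hN
    induction N, hN using Nat.le_induction with
    | base => exact ⟨fun _ => true, fun _ _ _ _ => rfl, by omega⟩
    | succ N hN ih =>
        obtain ⟨x, g1, g2⟩ := ih
        set d : Bool := cont N (sub x) with hd
        let x' : List ℕ → Bool := fun p => if p = [0, 3 * N] then (!d) else
          if p.getLast? = some (3 * N + 2) then d else x p
        have e1 : ∀ (p : List ℕ) (r : ℕ), p.getLast? = some r → r ≠ 3 * N → r ≠ 3 * N + 2 →
            x' p = x p := by
          intro p r hp hr hr2
          simp only [x']
          rw [if_neg, if_neg]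
          · rw [hp]
            simpa using hr2
          · rintro rfl
            apply hr
            simpa using hp.symm
        have eag : ∀ c, c ≤ N → cont c (sub x') = cont c (sub x) := by
          intro c hc
          apply hcont
          apply h4.agreeBelow
          intro p r' hp hr'
          exact e1 p r' hp (by omega) (by omega)
        have e3 : tr m' 1 x' [3 * N] = d := by
          cases hdd : d
          · apply tr_one_false
            intro z
            simp only [x']
            split_ifs with hz hz2
            · simp [hdd]
            · exfalso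
              simp at hz2
            · exact g1 [z, 3 * N] (3 * N) (by simp) (Or.inr le_rfl)
          · rw [tr_one]
            refine ⟨0, by omega, ?_⟩
            simp [x', hdd]
        have e3' : tr m' 2 x' [3 * N + 2] = d := by
          have hx' : ∀ y b, x' (y :: b :: [3 * N + 2]) = d := by
            intro y b
            simp only [x']
            rw [if_neg (by simp), if_pos (by simp)]
          cases hdd : d
          · apply tr_two_false
            intro b
            rw [tr_one]
            exact ⟨0, by omega, by rw [hx', hdd]⟩
          · exact tr_two_true m' x' [3 * N + 2] (b := 0) (by omega) (fun y => by rw [hx', hdd])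
        refine ⟨x', ?_, ?_⟩
        · intro p r hp hr
          rw [e1 p r hp (by omega) (by omega)]
          exact g1 p r hp (by omega)
        · intro c hc1 hc2
          rw [eag c (by omega)]
          by_cases hcN : c = N
          · subst hcN
            refine ⟨by rw [e3, hd], ?_, by rw [e3', hd]⟩
            intro y
            rw [e1 _ (3 * c + 1) (by simp) (by omega) (by omega)]
            exact g1 _ (3 * c + 1) (by simp) (Or.inr (by omega))
          · obtain ⟨g3, g4, g5⟩ := g2 c hc1 (by omega)
            refine ⟨?_, ?_, ?_⟩
            · rw [tr_one_congr m' x' x [3 * c]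
                (fun y => e1 _ (3 * c) (by simp) (by omega) (by omega)), g3]
            · intro y
              rw [e1 _ (3 * c + 1) (by simp) (by omega) (by omega)]
              exact g4 y
            · rw [tr_two_congr m' x' x [3 * c + 2]
                (fun y b => e1 _ (3 * c + 2) (by simp) (by omega) (by omega)), g5]
  obtain ⟨x, g1, g2⟩ := build1 (n + 1) (by omega)
  have hmain : tr m' 2 x [0] = true :=
    tr_two_true m' x [0] (b := 0) (by omega)
      (fun y => g1 [y, 0, 0] 0 (by simp) (Or.inl (by omega)))
  by_cases hfx : f (sub x) = true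
  swap
  · refine ⟨sub x, ?_, ?_⟩
    · intro c hc1 hc2
      rw [e1 x (3 * c) (by omega) (by omega), e1 x (3 * c + 1) (by omega) (by omega),
        e0 x (3 * c + 2) (by omega) (by omega)]
      obtain ⟨g3, g4, g5⟩ := g2 c hc1 (by omega)
      rw [g3, tr_one_false m' x [3 * c + 1] (fun y => g4 y), g5]
      simp
    · rw [e0 x 0 (Or.inl rfl) hW0, hmain]
      exact hfx
  · -- the second world
    obtain ⟨gg, hg1, hg2⟩ := hf'
    obtain ⟨j, hj⟩ := (hg2 x).1 hfx
    obtain ⟨T, hT1, hT2, hT3⟩ := hg1 j
    set L : List (List ℕ) := queries x T with hL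
    have hLlen : L.length < m' 0 := by
      have h5 := queries_length x T
      rw [hL]
      omega
    have hLlen1 : L.length < m' 1 := by
      have h5 := queries_length x T
      rw [hL]
      omega
    have build2 : ∀ N : ℕ, 1 ≤ N → ∃ z : List ℕ → Bool, (∀ p ∈ L, z p = x p) ∧
        (∀ (p : List ℕ) (r : ℕ), p.getLast? = some r → 3 * N ≤ r → z p = x p) ∧
        (∀ i, tr m' 1 z [i, 0] = true) ∧
        (∀ c, 1 ≤ c → c < N →
          xor (tr m' 1 z [3 * c]) (tr m' 1 z [3 * c + 1]) = cont c (sub z) ∧
          tr m' 2 z [3 * c + 2] = cont c (sub z)) := by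
      intro N hN
      induction N, hN using Nat.le_induction with
      | base =>
          refine ⟨fun p => if p.getLast? = some 0 ∧ p ∉ L then false else x p, ?_, ?_, ?_, ?_⟩
          · intro p hp
            simp only
            rw [if_neg]
            rintro ⟨_, h⟩
            exact h hp
          · intro p r hp hr
            simp only
            rw [if_neg]
            rintro ⟨h, _⟩
            rw [hp] at h
            have : r = 0 := by simpa using h
            omega
          · intro i
            obtain ⟨y, hy, hyL⟩ := exists_fresh L (m' 0) hLlen [i, 0]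
            rw [tr_one]
            refine ⟨y, hy, ?_⟩
            rw [if_pos]
            exact ⟨by simp, hyL⟩
          · intro c hc1 hc2
            omega
      | succ N hN ih =>
          obtain ⟨z, g3, g4, g5, g6⟩ := ih
          obtain ⟨y, hy, hyL⟩ := exists_fresh L (m' 0) hLlen [3 * N + 1]
          obtain ⟨b0, hb0, hb0L⟩ := exists_fresh2 L (m' 1) hLlen1 (3 * N + 2)
          set d : Bool := cont N (sub z) with hd
          set α : Bool := tr m' 1 z [3 * N] with hα
          let z' : List ℕ → Bool := fun p => if p = [y, 3 * N + 1] ∧ d ≠ α then false else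
            if p.getLast? = some (3 * N + 2) ∧ p ∉ L then d else z p
          have e5 : ∀ (p : List ℕ) (r : ℕ), p.getLast? = some r → r ≠ 3 * N + 1 →
              r ≠ 3 * N + 2 → z' p = z p := by
            intro p r hp hr hr2
            simp only [z']
            rw [if_neg, if_neg]
            · rintro ⟨h5, _⟩
              rw [hp] at h5
              exact hr2 (by simpa using h5)
            · rintro ⟨rfl, _⟩
              apply hr
              simpa using hp.symm
          have e6 : ∀ c, c ≤ N → cont c (sub z') = cont c (sub z) := by
            intro c hc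
            apply hcont
            apply h4.agreeBelow
            intro p r' hp hr'
            exact e5 p r' hp (by omega) (by omega)
          have hzb' : ∀ y', z [y', 3 * N + 1] = true := by
            intro y'
            rw [g4 _ (3 * N + 1) (by simp) (by omega)]
            by_cases hNn : N < n + 1
            · exact (g2 N hN hNn).2.1 y'
            · exact g1 _ (3 * N + 1) (by simp) (Or.inr (by omega))
          have hz1 : ∀ y', z' [y', 3 * N + 1] = if y' = y ∧ d ≠ α then false else true := by
            intro y'
            simp only [z']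
            by_cases h5 : y' = y ∧ d ≠ α
            · rw [if_pos ⟨by rw [h5.1], h5.2⟩, if_pos h5]
            · rw [if_neg (by
                rintro ⟨h6, h7⟩
                exact h5 ⟨by simpa using h6, h7⟩), if_neg (by simp), if_neg h5]
              exact hzb' y'
          have e7 : xor (tr m' 1 z' [3 * N]) (tr m' 1 z' [3 * N + 1]) = d := by
            rw [tr_one_congr m' z' z [3 * N]
              (fun y' => e5 _ (3 * N) (by simp) (by omega) (by omega)), ← hα]
            by_cases hdα : d = α
            · rw [tr_one_false m' z' [3 * N + 1]]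
              · simp [hdα]
              · intro y'
                rw [hz1, if_neg (by rintro ⟨_, h⟩; exact h hdα)]
            · have h5 : tr m' 1 z' [3 * N + 1] = true := by
                rw [tr_one]
                exact ⟨y, hy, by rw [hz1, if_pos ⟨rfl, hdα⟩]⟩
              rw [h5]
              revert hdα
              cases d <;> cases α <;> simp
          have hz2 : ∀ y' b, [y', b, 3 * N + 2] ∉ L → z' (y' :: b :: [3 * N + 2]) = d := by
            intro y' b h5
            simp only [z']
            rw [if_neg (by simp), if_pos ⟨by simp, h5⟩]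
          have e8 : tr m' 2 z' [3 * N + 2] = d := by
            cases hdd : d
            · apply tr_two_false
              intro b
              obtain ⟨y', hy', hy'L⟩ := exists_fresh L (m' 0) hLlen [b, 3 * N + 2]
              rw [tr_one]
              exact ⟨y', hy', by rw [hz2 y' b hy'L, hdd]⟩
            · exact tr_two_true m' z' [3 * N + 2] hb0 (fun y' => by rw [hz2 y' b0 (hb0L y'), hdd])
          refine ⟨z', ?_, ?_, ?_, ?_⟩
          · intro p hp
            simp only [z']
            rw [if_neg, if_neg]
            · exact g3 p hp
            · rintro ⟨_, h⟩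
              exact h hp
            · rintro ⟨rfl, _⟩
              exact hyL hp
          · intro p r hp hr
            rw [e5 p r hp (by omega) (by omega)]
            exact g4 p r hp (by omega)
          · intro i
            rw [tr_one_congr m' z' z [i, 0]
              (fun y' => e5 _ 0 (by simp) (by omega) (by omega))]
            exact g5 i
          · intro c hc1 hc2
            rw [e6 c (by omega)]
            by_cases hcN : c = N
            · subst hcN
              exact ⟨e7, e8⟩
            · obtain ⟨g7, g8⟩ := g6 c hc1 (by omega)
              rw [tr_one_congr m' z' z [3 * c]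
                  (fun y' => e5 _ (3 * c) (by simp) (by omega) (by omega)),
                tr_one_congr m' z' z [3 * c + 1]
                  (fun y' => e5 _ (3 * c + 1) (by simp) (by omega) (by omega)),
                tr_two_congr m' z' z [3 * c + 2]
                  (fun y' b => e5 _ (3 * c + 2) (by simp) (by omega) (by omega))]
              exact ⟨g7, g8⟩
    obtain ⟨z, g3, _, g5, g6⟩ := build2 (n + 1) (by omega)
    refine ⟨sub z, ?_, ?_⟩
    · intro c hc1 hc2
      rw [e1 z (3 * c) (by omega) (by omega), e1 z (3 * c + 1) (by omega) (by omega),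
        e0 z (3 * c + 2) (by omega) (by omega)]
      exact g6 c hc1 (by omega)
    · rw [e0 z 0 (Or.inl rfl) hW0]
      have h5 : tr m' 2 z [0] = false := tr_two_false m' z [0] g5
      have h6 : f (sub z) = true := by
        refine (hg2 z).2 ⟨j, ?_⟩
        rw [hT3, queries_eval x z T (fun p hp => g3 p hp), ← hT3]
        exact hj
      rw [h5, h6]
      simp

end Pool.Agent.Lib.Pa76659L
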