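import Pool.Agent.Lib.Pa76659L.Can

/-!
Adding a column or a hidden code: canonical members.
-/

set_option maxHeartbeats 4000000

namespace Pool.Agent.Lib.Pa76659L

open Pool.Agent.Lib.Pa76659 Pool.Agent.Lib.Pa76659O

/-- the value of a string of the new code, as a decision tree over the literals -/
noncomputable def colT (j : ℕ) (b : Option ℕ) (B : ℕ) (v : Str) : DT (Str ⊕ Str) Bool :=
  match b with
  | some k => Pa76659O.colT (par k) j true B v
  | none => Pa76659O.colT ⟨false, 0⟩ j false B v

theorem colT_some {j k B : ℕ} {v : Str} : colT j (some k) B v = Pa76659O.colT (par k) j true B v :=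
  rfl

theorem colT_none {j B : ℕ} {v : Str} : colT j none B v = Pa76659O.colT ⟨false, 0⟩ j false B v :=
  rfl

theorem isC_some {j k B : ℕ} {v : Str} : isC j (some k) B v ↔ Pa76659O.isC (par k) j true B v := by
  unfold Pa76659O.isC
  rw [if_pos rfl]
  exact Iff.rfl

theorem isC_none {j B : ℕ} {v : Str} : isC j none B v ↔ Pa76659O.isC ⟨false, 0⟩ j false B v := by
  unfold Pa76659O.isC
  rw [if_neg (by simp)]
  exact Iff.rfl

theorem colT_not {j : ℕ} {b : Option ℕ} {B : ℕ} {v : Str} (h : ¬ isC j b B v) :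
    colT j b B v = vr (Sum.inl v) := by
  cases b with
  | none => exact Pa76659O.colT_not (fun h' => h (isC_none.2 h'))
  | some k => exact Pa76659O.colT_not (fun h' => h (isC_some.2 h'))

theorem colT_depth (j : ℕ) (b : Option ℕ) (B : ℕ) (v : Str) :
    (colT j b B v).depth ≤ v.length + 2 := by
  cases b with
  | none => exact Pa76659O.colT_depth _ _ _ _ _
  | some k => exact Pa76659O.colT_depth _ _ _ _ _

/-- the value of the tree, if the leaf and column equations hold at `v` -/
theorem colT_eval' {j : ℕ} {b : Option ℕ} {i : NIx} {B : ℕ} {X : Lang} {v : Str}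
    (hcol : b = none → ∀ x, v = code j B x → X v = nEval i X x)
    (hleaf : ∀ k, b = some k → ∀ z r, v = code j B z ++ r →
      v.length = (code j B z).length * 2 ^ (par k).h →
      X v = lf (par k) i X z (code j B z).length r) :
    (colT j b B v).eval (Sum.elim X (join X (nEval i X))) = X v := by
  by_cases hc : isC j b B v
  · cases b with
    | some k =>
        rw [colT_some]
        unfold Pa76659O.colT
        rw [if_pos rfl]
        have h : ∃ t : Str × Str, v = code j B t.1 ++ t.2 ∧
            v.length = (code j B t.1).length * 2 ^ (par k).h := by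
          obtain ⟨z, r, h1, h2⟩ := hc
          exact ⟨(z, r), h1, h2⟩
        rw [dif_pos h]
        obtain ⟨h1, h2⟩ := h.choose_spec
        set t := h.choose
        have h3 := hleaf k rfl t.1 t.2 h1 h2
        rw [h3, lf]
        cases ha : arg (par k) t.1 with
        | none => simp [DT.eval]
        | some z' =>
            simp only
            rw [DT.eval_subst]
            have e : (fun u => (vr (V := Str ⊕ Str) (Sum.inr u)).eval
                (Sum.elim X (join X (nEval i X)))) = join X (nEval i X) := by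
              funext u
              rw [vr_eval, Sum.elim_inr]
            rw [e, J0T_eval]
    | none =>
        rw [colT_none]
        unfold Pa76659O.colT
        rw [if_neg (by simp)]
        have hc' : ∃ x, v = code j B x := hc
        rw [dif_pos hc', vr_eval, Sum.elim_inr]
        rw [hcol rfl hc'.choose hc'.choose_spec]
        rfl
  · rw [colT_not hc, vr_eval, Sum.elim_inl]

theorem colT_eval {q : QC} {j : ℕ} {b : Option ℕ} {i : NIx} {B : ℕ} {n : ℕ} {Y0 X : Lang}
    (hX : InF (addc q j b i B) n Y0 X) {v : Str} (hn : n ≤ v.length) :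
    (colT j b B v).eval (Sum.elim X (join X (nEval i X))) = X v := by
  apply colT_eval'
  · rintro rfl x hv
    rw [hv] at hn ⊢
    exact hX.col j i B x addc_E_self hn
  · rintro k rfl z r hv hl
    rw [hv] at hn hl ⊢
    exact hX.leaf j k i B z r addc_E_self hn hl

/-- the literals of the tree only need short strings -/
theorem colT_lit {j : ℕ} {b : Option ℕ} {i : NIx} {B : ℕ} (hB : GoodB b i B) {L L' m : ℕ}
    (hL : ∀ u : ℕ, u ^ 2 ≤ L → u ≤ L') {v : Str} (hc : isC j b B v) (hvL : v.length ≤ L)
    (hvm : v.length + 1 ≤ m) :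
    (colT j b B v).QIn {w | ∃ u, w = Sum.inr u ∧ LitOK i L' u ∧ u.length ≤ m} := by
  cases b with
  | some k =>
      rw [colT_some]
      unfold Pa76659O.colT
      rw [if_pos rfl]
      have h : ∃ t : Str × Str, v = code j B t.1 ++ t.2 ∧
          v.length = (code j B t.1).length * 2 ^ (par k).h := by
        obtain ⟨z, r, h1, h2⟩ := hc
        exact ⟨(z, r), h1, h2⟩
      rw [dif_pos h]
      obtain ⟨h1, h2⟩ := h.choose_spec
      set t := h.choose
      cases ha : arg (par k) t.1 with
      | none => trivial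
      | some z' =>
          simp only
          refine DT.QIn.subst ?_ (J0T_qin _)
          intro u hu
          have hu' : u.length ≤ (z' ++ tru (par k).h (code j B t.1).length z'.length
              t.2).length + 1 := hu
          have h6 := tru_le (r := t.2) (by rw [← h1]; exact h2) ha
          have h8 : 2 ^ (par k).h * t.1.length ≤ v.length := by
            rw [h2, mul_comm]
            exact Nat.mul_le_mul_right _ (length_le_code j B t.1)
          apply vr_qin
          refine ⟨u, rfl, ?_, by omega⟩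
          intro O O' hO
          have hB' : GoodHid (par k) i B := hB
          apply hB' t.1 u O O' (by omega)
          intro w hw
          apply hO
          apply hL
          have h9 : (code j B t.1).length ≤ v.length := by
            rw [h1, List.length_append]; omega
          rw [code_length] at h9
          omega
  | none =>
      rw [colT_none]
      unfold Pa76659O.colT
      rw [if_neg (by simp)]
      have hc' : ∃ x, v = code j B x := hc
      rw [dif_pos hc']
      have h1 := hc'.choose_spec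
      set x := hc'.choose
      apply vr_qin
      refine ⟨true :: x, rfl, ?_, ?_⟩
      · have h9 : v.length = j + 3 + (x.length + 2) ^ (2 ^ B) + x.length := by
          rw [h1, code_length]
        intro O O' hO
        have hB' : GoodCol i B := hB
        show nEval i O x = nEval i O' x
        apply hB'
        intro w hw
        apply hO
        apply hL
        omega
      · have h9 : v.length = j + 3 + (x.length + 2) ^ (2 ^ B) + x.length := by
          rw [h1, code_length]
        simp only [List.length_cons]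
        omega

theorem colT_qin {q : QC} {j : ℕ} {b : Option ℕ} {i : NIx} {B : ℕ} (hB : GoodB b i B)
    {n L L' c c' : ℕ} (hn : 2 ≤ n) (hL : ∀ u : ℕ, u ^ 2 ≤ L → u ≤ L') (hc : c + 1 ≤ c') {v : Str}
    (hv : v ∈ SSC q j b B n L c) :
    (if v.length ≤ L' then vr (Sum.inl v) else colT j b B v).QIn (VV q j b i B n L' c') := by
  have hnc : n ^ c + 1 ≤ n ^ c' := by
    have h1 : n ^ (c + 1) ≤ n ^ c' := Nat.pow_le_pow_right (by omega) hc
    have h2 : 1 ≤ n ^ c := Nat.one_le_pow _ _ (by omega)
    rw [pow_succ] at h1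
    nlinarith
  have hvc : v.length ≤ n ^ c' := by
    have := hv.2.1
    omega
  have hinl : (v.length ≤ L' ∨ ¬ isC j b B v) →
      (vr (V := Str ⊕ Str) (Sum.inl v)).QIn (VV q j b i B n L' c') := by
    intro h
    apply vr_qin
    refine ⟨?_, fun u hu => by simp at hu⟩
    intro w hw
    simp only [Sum.inl.injEq] at hw
    subst hw
    refine ⟨hv.1, hvc, hv.2.2.1, fun h2 => ?_⟩
    rcases h with h | h
    · exact h
    · exact absurd h2 h
  by_cases hvL : v.length ≤ L'
  · rw [if_pos hvL]
    exact hinl (Or.inl hvL)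
  rw [if_neg hvL]
  by_cases hcc : isC j b B v
  · refine (colT_lit hB hL hcc (hv.2.2.2 hcc) (m := n ^ c') ?_).mono ?_
    · have := hv.2.1
      omega
    · rintro w ⟨u, rfl, h1, h2⟩
      refine ⟨fun w hw => by simp at hw, fun w hw => ?_⟩
      simp only [Sum.inr.injEq] at hw
      subst hw
      exact ⟨h1, h2⟩
  · rw [colT_not hcc]
    exact hinl (Or.inr hcc)

section

variable {K : ℕ} {q : QC} (hq : WF q) {j : ℕ} {b : Option ℕ} {i : NIx} {B : ℕ}
  (hlit : LitE K q j b i B) (hB : GoodB b i B) (hj : q.E j = none)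

include hlit hB hj

theorem step_can (c : ℕ) : ∃ c' n0 : ℕ, ∀ n : ℕ, n0 ≤ n → ∀ L L' : ℕ,
    (∀ u : ℕ, u ^ 2 ≤ L → u ≤ L') → L' ≤ n ^ c → ∀ Y0 : Lang, Mem q Y0 → ∀ κ : ℕ, K ≤ κ →
    ∀ C : (Str → Bool) → Bool, IsC (SSC q j b B n L c) (n ^ c) (n ^ c) κ C →
    ∃ C' : (Str → Bool) → Bool, IsC (SSC q j b B n L' c') (n ^ c') (n ^ c') κ C' ∧
      ∀ X, InF (addc q j b i B) n Y0 X → C' X = C X := by
  classical
  obtain ⟨e, he⟩ := poly_le (Polynomial.X ^ c * (Polynomial.X ^ c + 2))
  obtain ⟨c', n1, h1⟩ := hlit (max e (c + 1))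
  refine ⟨c', max n1 2, fun n hn L L' hLL hL' Y0 hY0 κ hκ C hC => ?_⟩
  have hn1 : n1 ≤ n := le_trans (le_max_left _ _) hn
  have hn2 : 2 ≤ n := le_trans (le_max_right _ _) hn
  have he' := he n hn2
  simp only [Polynomial.eval_add, Polynomial.eval_mul, Polynomial.eval_pow,
    Polynomial.eval_X, Polynomial.eval_ofNat] at he'
  have hm1 : n ^ e ≤ n ^ max e (c + 1) := Nat.pow_le_pow_right (by omega) (le_max_left _ _)
  have hm2 : n ^ c ≤ n ^ max e (c + 1) := Nat.pow_le_pow_right (by omega)
    (le_trans (by omega) (le_max_right _ _))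
  have h2 := hC.subst (S' := VV q j b i B n L' (max e (c + 1))) (d := n ^ c + 2)
    (fun v => if v.length ≤ L' then vr (Sum.inl v) else colT j b B v) (by
      intro v hv
      split_ifs
      · rw [vr_depth]; omega
      · have h3 := colT_depth j b B v
        have h4 := hv.2.1
        omega) (fun v hv => colT_qin hB hn2 hLL (le_max_right _ _) hv)
  have h3 := h2.mono (subset_refl _) hm2 (he'.trans hm1)
  obtain ⟨C', hC', hC''⟩ := h1 n hn1 L' (hL'.trans hm2) Y0 hY0 κ hκ _ h3
  refine ⟨C', hC', fun X hX => ?_⟩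
  rw [hC'' X (hX.addc hj)]
  apply IsC.eval_congr _ hC
  intro v hv
  split_ifs
  · rw [vr_eval, Sum.elim_inl]
  · exact colT_eval hX hv.1

theorem iter_can : ∀ (M c : ℕ), ∃ c' n0 : ℕ, ∀ n : ℕ, n0 ≤ n → ∀ Y0 : Lang, Mem q Y0 →
    ∀ κ : ℕ, K ≤ κ →
    ∀ C : (Str → Bool) → Bool, IsC (SSC q j b B n (n ^ (2 ^ M)) c) (n ^ c) (n ^ c) κ C →
    ∃ C' : (Str → Bool) → Bool, IsC (SSC q j b B n (n - 1) c') (n ^ c') (n ^ c') κ C' ∧
      ∀ X, InF (addc q j b i B) n Y0 X → C' X = C X
  | 0, c => by
      obtain ⟨c', n0, h⟩ := step_can hlit hB hj (c + 1)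
      refine ⟨c', max n0 2, fun n hn Y0 hY0 κ hκ C hC => ?_⟩
      have hn2 : 2 ≤ n := le_trans (le_max_right _ _) hn
      have hbb : n ^ c ≤ n ^ (c + 1) := Nat.pow_le_pow_right (by omega) (by omega)
      refine h n (le_trans (le_max_left _ _) hn) (n ^ (2 ^ 0)) (n - 1) ?_ ?_ Y0 hY0 κ hκ C
        (hC.mono (SSC_mono (by omega) le_rfl (by omega)) hbb hbb)
      · intro u hu
        by_contra hcon
        have h1 : n ≤ u := by omega
        have h2 : n ^ 2 ≤ u ^ 2 := Nat.pow_le_pow_left h1 2
        simp only [pow_zero, pow_one] at hu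
        nlinarith
      · have h1 : n ^ 1 ≤ n ^ (c + 1) := Nat.pow_le_pow_right (by omega) (by omega)
        rw [pow_one] at h1
        omega
  | M + 1, c => by
      obtain ⟨b1, n1, h1⟩ := step_can hlit hB hj (c + 2 ^ M)
      obtain ⟨b2, n2, h2⟩ := iter_can M b1
      refine ⟨b2, max (max n1 n2) 2, fun n hn Y0 hY0 κ hκ C hC => ?_⟩
      have hn2 : 2 ≤ n := le_trans (le_max_right _ _) hn
      have hbb : n ^ c ≤ n ^ (c + 2 ^ M) := Nat.pow_le_pow_right (by omega) (Nat.le_add_right _ _)
      obtain ⟨C1, hC1, hC1'⟩ := h1 n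
        (le_trans (le_trans (le_max_left _ _) (le_max_left _ _)) hn) (n ^ (2 ^ (M + 1)))
        (n ^ (2 ^ M)) (by
          intro u hu
          have h3 : n ^ (2 ^ (M + 1)) = (n ^ (2 ^ M)) ^ 2 := by
            rw [← pow_mul]; congr 1
          rw [h3] at hu
          exact (Nat.pow_le_pow_iff_left (by norm_num)).1 hu)
        (Nat.pow_le_pow_right (by omega) (Nat.le_add_left _ _)) Y0 hY0 κ hκ C
        (hC.mono (SSC_mono (by omega) le_rfl (Nat.le_add_right _ _)) hbb hbb)
      obtain ⟨C2, hC2, hC2'⟩ := h2 n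
        (le_trans (le_trans (le_max_right _ _) (le_max_left _ _)) hn) Y0 hY0 κ hκ C1 hC1
      exact ⟨C2, hC2, fun X hX => (hC2' X hX).trans (hC1' X hX)⟩

include hq in
theorem goodC_addc (hg : GoodC K q) (hjN : j < q.N + 2) (hodd : j % 2 = 1)
    : GoodC K (addc q j b i B) := by
  intro p l a
  have hq' : WF (addc q j b i B) := addc_wf hq hB hjN hodd
  obtain ⟨c, n1, h1⟩ := hg p l a
  obtain ⟨c', n2, h2⟩ := iter_can hlit hB hj c c
  refine ⟨c', max (max n1 n2) (max q.N 2), fun n hn Y0 hY0 z hz => ?_⟩
  have hn1 : n1 ≤ n := le_trans (le_trans (le_max_left _ _) (le_max_left _ _)) hn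
  have hn2 : n2 ≤ n := le_trans (le_trans (le_max_right _ _) (le_max_left _ _)) hn
  have hnN : q.N ≤ n := le_trans (le_trans (le_max_left _ _) (le_max_right _ _)) hn
  have hn3 : 2 ≤ n := le_trans (le_trans (le_max_right _ _) (le_max_right _ _)) hn
  have hY0' : Mem q Y0 := addc_mem hj hY0
  have h3 := h1 n hn1 Y0 hY0' z hz
  obtain ⟨C', hC', hC''⟩ := h2 n hn2 Y0 hY0' (max l.length K) (le_max_right _ _) _
    (h3.mono (S' := SSC q j b B n (n ^ (2 ^ c)) c) (by
      rintro v ⟨c1, c2, c3⟩
      refine ⟨c1, c2, c3, fun _ => c2.trans (Nat.pow_le_pow_right (by omega) ?_)⟩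
      exact (Nat.lt_two_pow_self).le) le_rfl le_rfl)
  have hsub : SSC q j b B n (n - 1) c' ⊆ {v : Str | n ≤ v.length ∧ v.length ≤ n ^ c' ∧
      FreeC (addc q j b i B) v} := by
    rintro v ⟨c1, c2, c3, c4⟩
    have hnc : ¬ isC j b B v := by
      intro h
      have := c4 h
      omega
    refine ⟨c1, c2, c3.1, ?_, ?_, c3.2.2.2⟩
    · rintro ⟨j', i', B', x, hE, hv⟩
      by_cases hjj : j' = j
      · subst hjj
        rw [addc_E_self] at hE
        simp only [Option.some.injEq, Prod.mk.injEq] at hE
        obtain ⟨rfl, rfl, rfl⟩ := hE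
        exact hnc ⟨x, hv⟩
      · rw [addc_E_ne hjj] at hE
        exact c3.2.1 ⟨j', i', B', x, hE, hv⟩
    · rintro ⟨k', j', i', B', z', r, hE, hv, hl⟩
      by_cases hjj : j' = j
      · subst hjj
        rw [addc_E_self] at hE
        simp only [Option.some.injEq, Prod.mk.injEq] at hE
        obtain ⟨rfl, rfl, rfl⟩ := hE
        exact hnc ⟨z', r, hv, hl⟩
      · rw [addc_E_ne hjj] at hE
        exact c3.2.2.1 ⟨k', j', i', B', z', r, hE, hv, hl⟩
  refine (hC'.mono hsub le_rfl le_rfl).congr (fun Y => ?_)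
  set X := Phi (addc q j b i B) (fun _ => n) (mixW n Y0 Y) with hX
  have hXin : InF (addc q j b i B) n Y0 X := InF_Phi hq' hnN hY0 Y
  have e1 : C' Y = C' X := by
    refine IsC.eval_congr ?_ hC'
    intro v hv
    have hv' := hsub hv
    rw [hX, Phi_none hq' _ (hnN.trans hv'.1) hv'.2.2.1 hv'.2.2.2.1
      (fun k h => absurd ⟨k, h⟩ hv'.2.2.2.2.1)]
    unfold mixW
    rw [mix_ge hv'.1, if_neg hv'.2.2.2.2.2]
  rw [e1, hC'' X hXin]
  congr 1
  funext v
  exact (hXin.addc hj).eq_Phi hq hnN hY0' X v.length (fun _ _ _ _ => rfl) v le_rfl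

end

/-! ### the witnesses -/

/-- prefix of the region of the witness of type `n` -/
def preW (n : ℕ) : Str := false :: true :: (List.replicate n true ++ [false])

theorem preW_length (n : ℕ) : (preW n).length = n + 3 := by
  simp [preW]

theorem isW_preW (n : ℕ) (v : Str) : isW (preW n ++ v) := ⟨_, rfl⟩

/-- the region of the witness, as an oracle -/
def regW (n : ℕ) (X : Lang) : Lang := fun v => X (preW n ++ v)

/-- push the bits, then ask for a witness -/
def progR : Str → Prog
  | [] => progEE
  | b :: ρ => Prog.seq (Prog.push 0 b) (progR ρ)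

theorem exec_progR (X : Lang) : ∀ (ρ x y : Str), ∃ s', Exec X (progR ρ) (inp2 x y) s'
    (10 * x.length + 12 * ρ.length + 10) ∧ s' 0 = [!(X (ρ.reverse ++ x ++ y)), X (ρ.reverse ++ x ++ y)]
  | [], x, y => by
      obtain ⟨s', h1, h2⟩ := exec_progEE X x y
      exact ⟨s', h1.mono (by simp), by simpa using h2⟩
  | b :: ρ, x, y => by
      have h1 := exec_push (O := X) 0 b (inp2 x y)
      have e1 : Function.update (inp2 x y) 0 (b :: inp2 x y 0) = inp2 (b :: x) y := by
        funext r
        unfold inp2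
        by_cases hr : r = 0
        · subst hr; simp
        · simp [hr]
      rw [e1] at h1
      obtain ⟨s', h2, h3⟩ := exec_progR X ρ (b :: x) y
      refine ⟨s', (h1.seq h2).mono ?_, ?_⟩
      · simp only [List.length_cons]; omega
      · rw [h3]; simp

/-- the machine of the witness -/
noncomputable def iW (n : ℕ) : NIx :=
  (progR (preW n).reverse, 10 * Polynomial.X + Polynomial.C (12 * (n + 3) + 10), Polynomial.X)

theorem nEval_iW (n : ℕ) (X : Lang) : nEval (iW n) X = EE (regW n X) := by
  funext x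
  unfold nEval EE iW
  apply decide_eq_decide.2
  simp only [Polynomial.eval_add, Polynomial.eval_mul, Polynomial.eval_ofNat, Polynomial.eval_X,
    Polynomial.eval_C]
  have key : ∀ y : Str, accepts X (progR (preW n).reverse) (inp2 x y)
      (10 * x.length + (12 * (n + 3) + 10)) = !(regW n X (x ++ y)) := by
    intro y
    obtain ⟨s', h3, h4⟩ := exec_progR X (preW n).reverse x y
    obtain ⟨_, h6⟩ := h3.halts (N := 10 * x.length + (12 * (n + 3) + 10)) (by
      rw [List.length_reverse, preW_length]; omega)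
    rw [h6, h4, List.reverse_reverse, List.append_assoc]
    show _ = !(X (preW n ++ (x ++ y)))
    cases X (preW n ++ (x ++ y)) <;> rfl
  constructor
  · rintro ⟨y, hy, hy2⟩
    rw [key] at hy2
    exact ⟨y, hy, by simpa using hy2⟩
  · rintro ⟨y, hy, hy2⟩
    exact ⟨y, hy, by rw [key, hy2]; rfl⟩

/-- a low set -/
noncomputable def i0 : NIx := (Prog.skip, 0, 0)

theorem nEval_i0 (X : Lang) (x : Str) : nEval i0 X x = (x.head? == some true) := by
  rw [Bool.eq_iff_iff]
  unfold nEval
  simp only [decide_eq_true_eq, i0, Polynomial.eval_zero]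
  constructor
  · rintro ⟨y, _, h⟩
    exact h
  · intro h
    exact ⟨[], rfl, h⟩

theorem i0_mem (X : Lang) : nEval i0 X ∈ PO X := by
  refine ⟨Prog.skip, 1, fun x => ?_⟩
  have h := (exec_skip (O := X) (inp x)).halts (N := 1) le_rfl
  simp only [Polynomial.eval_one]
  refine ⟨h.1, ?_⟩
  rw [h.2, nEval_i0]
  rfl

theorem litOK_false {i i' : NIx} {L : ℕ} {v : Str} (h : LitOK i L (false :: v)) :
    LitOK i' L (false :: v) := fun O O' hO => h O O' hO

/-- the value of the witness above the region -/
theorem nEval_iW_true {n N : ℕ} {X : Lang} (hX : ∀ v : Str, N ≤ v.length → isW v → X v = true)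
    {x : Str} (hx : N ≤ n + 3 + 2 * x.length) : nEval (iW n) X x = false := by
  rw [nEval_iW, ← Bool.not_eq_true, EE_true]
  rintro ⟨y, hy, hy2⟩
  unfold regW at hy2
  rw [hX _ (by simp only [List.length_append, preW_length]; omega) (isW_preW n _)] at hy2
  simp at hy2

theorem nEval_iW_congr {n : ℕ} {X X' : Lang} {x : Str}
    (h : ∀ v : Str, v.length = n + 3 + 2 * x.length → isW v → X v = X' v) :
    nEval (iW n) X x = nEval (iW n) X' x := by
  rw [nEval_iW, nEval_iW, Bool.eq_iff_iff, EE_true, EE_true]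
  have key : ∀ y : Str, y.length = x.length → regW n X (x ++ y) = regW n X' (x ++ y) := by
    intro y hy
    unfold regW
    apply h _ _ (isW_preW n _)
    simp only [List.length_append, preW_length]
    omega
  constructor
  · rintro ⟨y, hy, hy2⟩; exact ⟨y, hy, by rw [← key y hy]; exact hy2⟩
  · rintro ⟨y, hy, hy2⟩; exact ⟨y, hy, by rw [key y hy]; exact hy2⟩

/-- replace the literals of the witness by those of `i0` -/
noncomputable def toI0 (m n : ℕ) (Y0 : Lang) : Str ⊕ Str → (Str ⊕ Str) ⊕ Bool
  | Sum.inl v => Sum.inl (Sum.inl v)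
  | Sum.inr [] => Sum.inr false
  | Sum.inr (false :: v) => Sum.inl (Sum.inr (false :: v))
  | Sum.inr (true :: x) => if m + 3 + 2 * x.length < n then Sum.inr (nEval (iW m) Y0 x) else
      Sum.inr false

theorem toI0_eval {m n : ℕ} {Y0 X : Lang} (hlt : ∀ v : Str, v.length < n → X v = Y0 v)
    (hwit : ∀ v : Str, n ≤ v.length → isW v → X v = true) (w : Str ⊕ Str) :
    Sum.elim (Sum.elim X (join X (nEval i0 X))) id (toI0 m n Y0 w) =
      Sum.elim X (join X (nEval (iW m) X)) w := by
  rcases w with v | u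
  · rfl
  · rcases u with _ | ⟨_ | _, u⟩
    · rfl
    · rfl
    · simp only [toI0, Sum.elim_inr]
      show _ = nEval (iW m) X u
      split_ifs with h3
      · simp only [Sum.elim_inr, id_eq]
        apply nEval_iW_congr
        intro v hv _
        exact (hlt v (by omega)).symm
      · simp only [Sum.elim_inr, id_eq]
        exact (nEval_iW_true hwit (by omega)).symm

/-- the literals of the witness are easy in the canonical members -/
theorem litE_witness {K : ℕ} {q : QC} {j : ℕ} {b : Option ℕ} {B : ℕ} (h0 : LitE K q j b i0 B)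
    (m : ℕ) : LitE K q j b (iW m) B := by
  classical
  intro c
  obtain ⟨c', n0, h1⟩ := h0 c
  refine ⟨c', n0, fun n hn L' hL' Y0 hY0 κ hκ C hC => ?_⟩
  have h2 := hC.rename (S' := VV q j b i0 B n L' c) (toI0 m n Y0) (by
    rintro (v | u) hv v' hvv'
    · simp only [toI0, Sum.inl.injEq] at hvv'
      subst hvv'
      exact ⟨fun w hw => hv.1 w (by simpa using hw), fun w hw => by simp at hw⟩
    · rcases u with _ | ⟨_ | _, u⟩
      · simp [toI0] at hvv'
      · simp only [toI0, Sum.inl.injEq] at hvv'
        subst hvv'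
        refine ⟨fun w hw => by simp at hw, fun w hw => ?_⟩
        simp only [Sum.inr.injEq] at hw
        subst hw
        obtain ⟨h6, h7⟩ := hv.2 _ rfl
        exact ⟨litOK_false h6, h7⟩
      · simp only [toI0] at hvv'
        split_ifs at hvv')
  obtain ⟨C', hC', hC''⟩ := h1 n hn L' hL' Y0 hY0 κ hκ _ h2
  refine ⟨C', hC', fun X hX => ?_⟩
  rw [hC'' X hX]
  congr 1
  funext w
  exact toI0_eval hX.lt hX.wit w

end Pool.Agent.Lib.Pa76659L
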