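import Pool.Agent.Lib.Pa76659O.FinalO

/-!
Conditions with columns and with hidden codes of several types at once. The codes of type `n`
belong to the `n`-th inclusion of the chain of the low classes.
-/

set_option maxHeartbeats 4000000

namespace Pool.Agent.Lib.Pa76659L

open Pool.Agent.Lib.Pa76659 Pool.Agent.Lib.Pa76659P Pool.Agent.Lib.Pa76659.Hier
  Pool.Agent.Lib.Pa76659O

/-- the shape of the codes of type `n` -/
def par (n : ℕ) : Par := ⟨decide (n % 2 = 1), n / 2 + 1⟩

/-- Conditions: the oracle is frozen below `N` (with values `σ`), the tables are given by `τ`, and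
`E` lists the columns (type `none`) and the hidden codes (type `some n`). -/
structure QC where
  N : ℕ
  σ : Lang
  τ : Lang
  E : ℕ → Option (Option ℕ × NIx × ℕ)

/-- string of a column -/
def isP (q : QC) (v : Str) : Prop := ∃ j i B x, q.E j = some (none, i, B) ∧ v = code j B x

/-- leaf of a hidden code of type `n` -/
def isHn (q : QC) (n : ℕ) (v : Str) : Prop := ∃ j i B z r, q.E j = some (some n, i, B) ∧
  v = code j B z ++ r ∧ v.length = (code j B z).length * 2 ^ (par n).h

/-- leaf of a hidden code -/
def isH (q : QC) (v : Str) : Prop := ∃ n, isHn q n v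

/-- the oracle obeys the condition -/
structure Mem (q : QC) (X : Lang) : Prop where
  low : ∀ v : Str, v.length < q.N → X v = q.σ v
  tab : ∀ v : Str, q.N ≤ v.length → isTab v → X v = q.τ v
  col : ∀ j i B x, q.E j = some (none, i, B) → q.N ≤ (code j B x).length →
    X (code j B x) = nEval i X x
  hid : ∀ j n i B z, q.E j = some (some n, i, B) → q.N ≤ clen (par n) j B z →
    val (par n) j B X z = cnt (par n) i X z

structure WF (q : QC) : Prop where
  goodP : ∀ j i B, q.E j = some (none, i, B) → GoodCol i B
  goodH : ∀ j n i B, q.E j = some (some n, i, B) → GoodHid (par n) i B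
  fin : ∀ j, q.N + 2 ≤ j → q.E j = none
  odd : ∀ j c, q.E j = some c → j % 2 = 1

end Pool.Agent.Lib.Pa76659L
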