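import Pool.Agent.Lib.Pa76659L.RepCol
import Pool.Agent.Lib.Pa76659L.Adv

/-!
Diagonalisation of the iterated witness against the machines.
-/

set_option maxHeartbeats 4000000

namespace Pool.Agent.Lib.Pa76659L

open Pool.Agent.Lib.Pa76659 Pool.Agent.Lib.Pa76659.Hier Pool.Agent.Lib.Pa76659O
open Pool.Agent.Lib.Pa76659P (AgreeBelow advSigma MS MD MS_poly MD_poly)

/-- the heights of the codes of a condition are bounded -/
theorem exists_HB {q : QC} (hq : WF q) (h0 : ℕ) : ∃ H, h0 ≤ H ∧ HB H q := by
  classical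
  let ht : ℕ → ℕ := fun j => match q.E j with
    | some (some k, _, _) => (par k).h
    | _ => 0
  refine ⟨max h0 ((Finset.range (q.N + 2)).sup ht), le_max_left _ _, ?_⟩
  intro j k i B hE
  have hj : j < q.N + 2 := by
    by_contra hcon
    rw [hq.fin j (by omega)] at hE
    simp at hE
  have h1 : ht j = (par k).h := by simp only [ht, hE]
  rw [← h1]
  exact (Finset.le_sup (Finset.mem_range.2 hj)).trans (le_max_right _ _)

theorem exists_diffW {n : ℕ} {q : QC} (hq : WF q) (hg : GoodA n q)
    (p' p : PIx) (l : List NIx) (hl : l.length = gg (par n)) :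
    ∃ X, Mem q X ∧ ∃ s : Str, mach (par n) p' p l X s ≠ QQ (kp (par n)) (regW n X) s := by
  classical
  obtain ⟨X0, hX0⟩ := exists_mem hq
  obtain ⟨H, hH, hHB⟩ := exists_HB hq (par n).h
  have hh : 1 ≤ (par n).h := by unfold par; simp
  set P := par n with hP
  obtain ⟨b, n1, hb⟩ := hg H hH hHB p' p l 1 hl
  obtain ⟨b', hb'⟩ := poly_le (Polynomial.X ^ b + Polynomial.X + 4 + Polynomial.C (n + 3))
  obtain ⟨d1, hd1⟩ := MS_poly (P.h - 1) b'
  obtain ⟨d2, hd2⟩ := MD_poly (P.h - 1) b'
  obtain ⟨n2, hn2'⟩ := gl_large ⟨false, H⟩ (max d1 d2)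
  set n0 : ℕ := max (max n1 n2) (max q.N 2) with hn
  have hnn0 : n1 ≤ n0 := le_trans (le_max_left _ _) (le_max_left _ _)
  have hnn1 : n2 ≤ n0 := le_trans (le_max_right _ _) (le_max_left _ _)
  have hnN : q.N ≤ n0 := le_trans (le_max_left _ _) (le_max_right _ _)
  have hn2 : 2 ≤ n0 := le_trans (le_max_right _ _) (le_max_right _ _)
  have hb'' := hb' n0 hn2
  simp only [Polynomial.eval_add, Polynomial.eval_pow, Polynomial.eval_X,
    Polynomial.eval_ofNat, Polynomial.eval_C] at hb''
  obtain ⟨m, hm, cont, hcont, M, hM, Q, hQ, T, hT, hmain⟩ := hb n0 hnn0 X0 hX0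
  set g := n0 / 2 ^ H with hgdef
  set κ := kp P with hκ
  have hgn : g ≤ n0 := Nat.div_le_self _ _
  have hggl : g * 2 ^ H ≤ n0 - 1 + 1 := by
    have := Nat.div_mul_le_self n0 (2 ^ H)
    rw [← hgdef] at this
    omega
  set s : Str := List.replicate n0 false with hs
  have hsl : s.length = n0 := by simp [hs]
  let G : (List ℕ → Bool) → Lang := fun x v => x (dec g κ n0 (v.drop (n + 3 + n0)) [0])
  set hi : ℕ := n0 ^ b + n0 with hhidef
  set R0 : ℕ := 2 ^ hi with hR0
  have hR0p : 1 ≤ R0 := Nat.one_le_two_pow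
  have hhi : n0 - 1 ≤ hi := by omega
  let Xw' : (List ℕ → Bool) → Lang := fun x => World q n g (n0 - 1) hi X0 (G x) x
  let ct : ℕ → (List ℕ → Bool) → Bool := fun r x =>
    if r = 0 then false else if r < 2 * R0 then contH q n (n0 - 1) hi (Xw' x) r
    else cont (r - 2 * R0) (Xw' x) (fun p => x (shift (rtt P (2 * R0)) p))
  have hrt1 : ∀ r, 1 ≤ r → 0 < rtt P r := by
    intro r hr
    unfold rtt
    split_ifs <;> omega
  have hGag : ∀ (r : ℕ) (x x' : List ℕ → Bool), 1 ≤ r → AgreeBelow (rtt P r) x x' →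
      G x = G x' := by
    intro r x x' hr hxx
    funext v
    exact hxx _ 0 (dec_getLast g κ n0 _ [0] 0 (by simp)) (hrt1 r hr)
  have hrnk : ∀ (j B : ℕ) (z : Str), (code j B z).length ≤ hi → rnk (code j B z) < 2 * R0 := by
    intro j B z hz
    refine lt_of_lt_of_le (rnk_lt _) ?_
    rw [hR0, ← pow_succ']
    exact Nat.pow_le_pow_right (by norm_num) (by omega)
  have hctag : ∀ r x x', AgreeBelow (rtt P r) x x' → ct r x = ct r x' := by
    intro r x x' hxx
    simp only [ct]
    by_cases h3 : r = 0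
    · rw [if_pos h3, if_pos h3]
    rw [if_neg h3, if_neg h3]
    have hG : G x = G x' := hGag r x x' (by omega) hxx
    by_cases h4 : r < 2 * R0
    · rw [if_pos h4, if_pos h4]
      apply contH_congr hq (fun _ _ => rfl)
      · intro v _ _
        rw [hG]
      · exact hxx
    · rw [if_neg h4, if_neg h4]
      have hX1 : Xw' x = Xw' x' := by
        funext v
        refine World_congr hq v.length (fun _ _ => rfl) ?_ ?_ v le_rfl
        · intro u _ _ _
          rw [hG]
        · intro u _ _ h5 hh
          cases hpu : pos q n g u with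
          | inr c => rfl
          | inl pu =>
            obtain ⟨r', h6, h7⟩ := pos_last_lt hh hpu
            rw [← hP] at h7
            simp only [Sum.elim_inl]
            apply hxx _ r' h6
            have h8 : rtt P (2 ^ (u.length + 1)) ≤ rtt P r := rtt_mono P (by
              have h9 : 2 ^ (u.length + 1) ≤ 2 * R0 := by
                rw [hR0, ← pow_succ']
                exact Nat.pow_le_pow_right (by norm_num) (by omega)
              omega)
            omega
      rw [hX1]
      apply hcont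
      apply agree_shift
      rw [← rtt_add, Nat.add_sub_cancel' (by omega)]
      exact hxx
  -- the circuits
  let φ : Str ⊕ List ℕ → List ℕ ⊕ Bool := fun u => match u with
    | Sum.inl v => if isHge q n v then pos q n g v else
        Sum.inl (dec g κ n0 (v.drop (n + 3 + n0)) [0])
    | Sum.inr p => Sum.inl (shift (rtt P (2 * R0)) p)
  have hφ : ∀ x, ∀ u ∈ SV P (SA n q n0 b) m, Sum.elim x id (φ u) =
      Sum.elim (Xw' x) (fun p => x (shift (rtt P (2 * R0)) p)) u := by
    intro x
    rintro (v | p) hu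
    · have hv := hu.1 v rfl
      have hv1 := hv.1
      have hv2 := hv.2.1
      have hvA : FreeA n q v := hv.2.2
      simp only [φ, Sum.elim_inl]
      by_cases h3 : isHge q n v
      · rw [if_pos h3]
        symm
        exact World_hid hq (by omega) (by omega) (by omega) h3
      · rw [if_neg h3]
        symm
        have hnH : ¬ isH q v := by
          rintro ⟨k, hk⟩
          by_cases hkn : k < n
          · exact hvA.2.2.1 k hkn hk
          · exact h3 ⟨k, by omega, hk⟩
        exact World_free hq (by omega) (by omega) hvA.1 hvA.2.1 hnH hvA.2.2.2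
    · rfl
  have hQ' : ∀ ν, IsC Set.univ (n0 ^ b) (n0 ^ b) (gg P) (fun x => Q ν
      (Sum.elim (Xw' x) (fun p => x (shift (rtt P (2 * R0)) p)))) := by
    intro ν
    refine ((hQ ν).rename (S' := Set.univ) φ (fun _ _ _ _ => Set.mem_univ _)).congr (fun x => ?_)
    exact IsC.eval_congr (hφ x) (hQ ν)
  -- the main tree
  have hmt : ∀ x, QQ κ (regW n (Xw' x)) s = tr (fun _ => 2 ^ g) κ x [0] := by
    intro x
    apply QQ_trN g
    · rw [hsl]; exact hgn
    · intro r _
      unfold regW
      obtain ⟨h3, h4, h5⟩ := isW_not (q := q) (isW_preW n (s ++ r))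
      have hnw : ¬ isWlt n (preW n ++ (s ++ r)) := by
        rintro ⟨m', hm', u, hu⟩
        have h6 : List.replicate n true ++ (false :: (s ++ r)) =
            List.replicate m' true ++ (false :: u) := by
          have h7 := hu
          simp only [preW, List.cons_append, List.append_assoc, List.nil_append,
            List.cons.injEq, true_and] at h7
          exact h7
        have h7 := (rep_inj true n m' (s ++ r) u (by simpa using h6)).1
        omega
      have h6 : Xw' x (preW n ++ (s ++ r)) = G x (preW n ++ (s ++ r)) :=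
        World_free hq (by omega) (by
          simp only [List.length_append, hsl]; omega) h3 h4 h5 hnw
      rw [h6]
      simp only [G]
      have h7 : (preW n ++ (s ++ r)).drop (n + 3 + n0) = r := by
        rw [← List.append_assoc]
        have : (preW n ++ s).length = n + 3 + n0 := by
          rw [List.length_append, preW_length, hsl]
        rw [← this, List.drop_left]
      rw [h7, hsl]
  -- conclusion from the choice of the forest
  have hfin : ∀ x, (∀ r, 1 ≤ r → r < 2 * R0 + m → TV P g x r (ct r x)) →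
      Mem q (Xw' x) ∧
      mach P p' p l (Xw' x) s = (T ⟨s, by rw [hsl, pow_one]⟩).eval (fun ν => Q ν
        (Sum.elim (Xw' x) (fun p => x (shift (rtt P (2 * R0)) p)))) := by
    intro x hx
    have h3 : Mem q (Xw' x) := by
      apply World_mem hq hX0 hhi (by omega) hggl hHB
      intro j k i B z hE hk h4 h5
      have h6 : (code j B (nm (par k) z)).length ≤ clen (par k) j B z := by
        unfold clen
        have : (code j B (nm (par k) z)).length * 1 ≤
            (code j B (nm (par k) z)).length * 2 ^ (par k).h :=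
          Nat.mul_le_mul_left _ Nat.one_le_two_pow
        omega
      have h7 := hrnk j B (nm (par k) z) (by omega)
      have h8 := rnk_pos (code j B (nm (par k) z))
      have h9 := hx _ h8 (by omega)
      simp only [ct] at h9
      rw [if_neg (by omega), if_pos h7, contH_code hE hk h4 h5] at h9
      exact h9
    have h3' : InA n q n0 X0 (Xw' x) := by
      refine ⟨h3, fun v hv => World_le hq hX0 hhi (by omega), ?_, ?_⟩
      · intro j k i B z r hE hk hv hl'
        exact World_leaf hq (by omega) hE hk (by omega) hl'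
      · intro v hv hw
        exact World_wit hq (by omega) (by omega) hw
    refine ⟨h3, ?_⟩
    have h4 := hmain (Xw' x) h3' (fun p => x (shift (rtt P (2 * R0)) p)) (by
      intro r hr
      rw [TV_shift]
      have h5 := hx (2 * R0 + r) (by omega) (by omega)
      simp only [ct] at h5
      rw [if_neg (by omega), if_neg (by omega), Nat.add_sub_cancel_left] at h5
      exact h5) ⟨s, by rw [hsl, pow_one]⟩
    exact h4.symm
  -- bounds
  have hW : 3 * (2 * R0 + m) ≤ 2 ^ (n0 ^ b') := by
    have h3 : 2 ^ (n0 ^ b) ≤ R0 := Nat.pow_le_pow_right (by norm_num) (by omega)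
    have h4 : 2 ^ (hi + 4) ≤ 2 ^ (n0 ^ b') := Nat.pow_le_pow_right (by norm_num) (by omega)
    rw [pow_add, ← hR0] at h4
    omega
  have hgW : 2 ^ g ≤ 2 ^ (n0 ^ b') := Nat.pow_le_pow_right (by norm_num) (by omega)
  have hlarge : n0 ^ max d1 d2 ≤ 2 ^ g := hn2' n0 hnn1
  have hbb : n0 ^ b ≤ n0 ^ b' := by omega
  have hTT := hT ⟨s, by rw [hsl, pow_one]⟩
  unfold TOK at hTT
  by_cases hd : P.d = true
  · rw [if_pos hd] at hTT
    obtain ⟨ν, hν⟩ := hTT
    have hgg : gg P = P.h - 1 + 1 := by
      unfold gg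
      rw [if_pos hd]; omega
    have hkp : κ = P.h - 1 + 2 := by
      rw [hκ]
      unfold kp
      rw [if_pos hd]; omega
    have hQν := hQ' ν
    rw [hgg] at hQν
    have hreq : ∀ i ≤ P.h - 1 + 1, MD (P.h - 1) (n0 ^ b) (n0 ^ b) (n0 ^ b') ≤ (fun _ => 2 ^ g) i ∧
        (fun _ => 2 ^ g) i ≤ 2 ^ (n0 ^ b') := by
      intro i _
      refine ⟨?_, hgW⟩
      have h3 := hd2 n0 hn2 (n0 ^ b) (n0 ^ b) (n0 ^ b') hbb hbb le_rfl
      have h4 : n0 ^ d2 ≤ n0 ^ max d1 d2 := Nat.pow_le_pow_right (by omega) (le_max_right _ _)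
      exact h3.trans (h4.trans hlarge)
    obtain ⟨x, hx1, hx2⟩ := advDelta3 (P.h - 1) (n0 ^ b) (n0 ^ b) (n0 ^ b') (2 ^ (n0 ^ b'))
      (2 * R0 + m) le_rfl hW (fun _ => 2 ^ g) hreq _ hQν ct (by
        intro c x x' hxx
        apply hctag
        unfold rtt
        rw [if_pos hd]
        exact hxx)
    have hP1 : P.h - 1 + 1 = P.h := by omega
    have hP2 : P.h - 1 + 2 = P.h + 1 := by omega
    obtain ⟨h3, h4⟩ := hfin x (by
      intro r hr1 hr2
      have h5 := hx1 r hr1 hr2
      unfold TV
      rw [if_pos hd]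
      rw [hP1, hP2] at h5
      exact h5)
    refine ⟨Xw' x, h3, s, ?_⟩
    rw [h4, hν, vr_eval, hmt, hkp]
    exact hx2
  · rw [if_neg hd] at hTT
    have hgg : gg P = P.h - 1 := by
      unfold gg
      rw [if_neg hd]
    have hkp : κ = P.h - 1 + 1 := by
      rw [hκ]
      unfold kp
      rw [if_neg hd]; omega
    have hreq : ∀ i ≤ P.h - 1, MS (P.h - 1) (n0 ^ b) (n0 ^ b) (n0 ^ b) (n0 ^ b) (n0 ^ b') ≤
        (fun _ => 2 ^ g) i ∧ (fun _ => 2 ^ g) i ≤ 2 ^ (n0 ^ b') := by
      intro i _
      refine ⟨?_, hgW⟩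
      have h3 := hd1 n0 hn2 (n0 ^ b) (n0 ^ b) (n0 ^ b) (n0 ^ b) (n0 ^ b') hbb hbb hbb hbb le_rfl
      have h4 : n0 ^ d1 ≤ n0 ^ max d1 d2 := Nat.pow_le_pow_right (by omega) (le_max_left _ _)
      exact h3.trans (h4.trans hlarge)
    obtain ⟨x, hx1, hx2⟩ := advSigma (P.h - 1) (n0 ^ b) (n0 ^ b) (n0 ^ b) (n0 ^ b) (n0 ^ b')
      (2 ^ (n0 ^ b')) (2 * R0 + m) le_rfl (by omega) (fun _ => 2 ^ g) hreq (ι := Fin M)
      (by simpa using hM) (fun ν x => Q ν
        (Sum.elim (Xw' x) (fun p => x (shift (rtt P (2 * R0)) p)))) (by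
        intro ν
        have h5 := hQ' ν
        rw [hgg] at h5
        exact h5) (T ⟨s, by rw [hsl, pow_one]⟩) hTT ct (by
        intro c x x' hxx
        apply hctag
        unfold rtt
        rw [if_neg hd]
        exact hxx)
    have hP1 : P.h - 1 + 1 = P.h := by omega
    obtain ⟨h3, h4⟩ := hfin x (by
      intro r hr1 hr2
      have h5 := hx1 r hr1 hr2
      unfold TV
      rw [if_neg hd]
      rw [hP1] at h5
      exact h5)
    refine ⟨Xw' x, h3, s, ?_⟩
    rw [h4, hmt, hkp]
    exact hx2

end Pool.Agent.Lib.Pa76659L
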