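import Pool.Agent.Lib.Pa76659L.Next

/-!
Relative to the oracle the proper inclusions of the chain of the low classes are the given ones.
-/

set_option maxHeartbeats 4000000

namespace Pool.Agent.Lib.Pa76659L

open Pool.Agent.Lib.Pa76659 Pool.Agent.Lib.Pa76659P Pool.Agent.Lib.Pa76659.Hier
  Pool.Agent.Lib.Pa76659O

theorem prefix_mem (X : Lang) (ρ : Str) : (fun v => X (ρ ++ v)) ∈ PO X := by
  induction ρ generalizing X with
  | nil => exact query_mem X
  | cons b ρ ih => exact PO_subset (cons_mem b X) (ih (fun x => X (b :: x)))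

theorem regW_mem (n : ℕ) (X : Lang) : regW n X ∈ PO X := prefix_mem X (preW n)

theorem wit_mem (n : ℕ) (X : Lang) : nEval (iW n) X ∈ NPO X := by
  rw [nEval_iW]
  exact NPO_subset (regW_mem n X) (EE_mem (regW n X))

theorem inf_of_ok {S : Set ℕ} {X : Lang} (hX : ∀ r : Rq, Ok S X r) :
    ∀ k, Sig X k ≠ Sig X (k + 1) := by
  intro k hk
  have h2 := univ_mem X (k + 1)
  rw [← hk] at h2
  obtain ⟨p, l, hl, h3, h4⟩ := exists_gen h2
  rcases hX (Sum.inl (Sum.inl (p, l))) with h5 | ⟨s, hs⟩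
  · exact h5 h4
  · rw [hl, ← h3] at hs
    exact hs rfl

theorem par_h_pos (n : ℕ) : 1 ≤ (par n).h := by unfold par; simp

/-- sets with codes of type `n` belong to the class after the `n`-th inclusion -/
theorem code_chn {n : ℕ} {X : Lang} (hU : Univ2 X) {i : NIx} (hi : nEval i X ∈ NPO X) {j B : ℕ}
    (h : ∀ z, val (par n) j B X z = cnt (par n) i X z) : nEval i X ∈ chn X (n + 1) := by
  obtain ⟨h1, h2⟩ := low_of_code hU (par_h_pos n) hi h
  rcases Nat.even_or_odd' n with ⟨k, rfl | rfl⟩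
  · rw [chn_odd]
    have h3 := h1 (by simp [par])
    have e : (par (2 * k)).h = k + 1 := by simp [par]
    rwa [e] at h3
  · rw [show 2 * k + 1 + 1 = 2 * (k + 1) by ring, chn_even]
    have e : (par (2 * k + 1)).h = k + 1 := by
      simp only [par]
      omega
    rwa [e] at h2

/-- the witness belongs to the class after its inclusion -/
theorem wit_chn {S : Set ℕ} {n : ℕ} (hn : n ∈ S) {X : Lang} (hU : Univ2 X)
    (hX : ∀ r : Rq, Ok S X r) : nEval (iW n) X ∈ chn X (n + 1) := by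
  have h1 : J 1 (ZZ i0 X) ∈ Sig X 1 := by
    have h2 : join X (nEval i0 X) ∈ PO X := join_mem2 (query_mem X) (i0_mem X)
    exact Sig_subset (PO_subset h2 (ZZ_mem i0 X)) 1 (J_mem _ _)
  obtain ⟨p0, l0, hl0, h3⟩ := exists_sEval h1
  rcases hX (Sum.inr (Sum.inl (n, p0, l0))) hn hl0 with ⟨j, B, h⟩ | ⟨s, hs⟩
  · exact code_chn hU (wit_mem n X) h
  · exact absurd (congrFun h3 s) hs

/-- the witness does not belong to the class before its inclusion -/
theorem wit_not {S : Set ℕ} {n : ℕ} (hn : n ∈ S) {X : Lang} (hX : ∀ r : Rq, Ok S X r) :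
    nEval (iW n) X ∉ chn X n := by
  rcases Nat.even_or_odd' n with ⟨k, rfl | rfl⟩
  · rw [chn_even]
    intro h1
    have hd' : ¬ (par (2 * k)).d = true := by simp [par]
    have hgg : gg (par (2 * k)) = k := by
      unfold gg
      rw [if_neg hd']
      simp [par]
    have hkp : kp (par (2 * k)) = k + 1 := by
      unfold kp
      rw [if_neg hd']
      simp [par]
    have h2 : QQ (k + 1) (regW (2 * k) X) ∈ DelSucc X k := by
      apply h1.2
      refine ⟨QQ (k + 1) (regW (2 * k) X), ?_, query_mem _⟩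
      unfold QQ
      rw [Function.iterate_succ_apply, ← nEval_iW]
      exact EE_iter_mem _ (cons_mem true (join X (nEval (iW (2 * k)) X))) k
    obtain ⟨C, hC, h3⟩ := h2
    obtain ⟨p, l, hl, h4⟩ := exists_sEval hC
    obtain ⟨p', h5⟩ := exists_pEval h3
    obtain ⟨s, hs⟩ := hX (Sum.inl (Sum.inr (2 * k, p', p, l))) hn (by rw [hl, hgg])
    rw [Pa76659O.mach, if_neg hd', hkp, ← h4, ← h5] at hs
    exact hs rfl
  · rw [chn_odd]
    intro h1
    have hd' : (par (2 * k + 1)).d = true := by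
      simp only [par, decide_eq_true_eq]
      omega
    have eh : (par (2 * k + 1)).h = k + 1 := by
      simp only [par]
      omega
    have hgg : gg (par (2 * k + 1)) = k + 1 := by
      unfold gg
      rw [if_pos hd', eh]
    have hkp : kp (par (2 * k + 1)) = k + 1 + 1 := by
      unfold kp
      rw [if_pos hd', eh]
    have h2 : QQ (k + 1 + 1) (regW (2 * k + 1) X) ∈ Sig X (k + 1) := by
      apply h1.2
      unfold QQ
      rw [Function.iterate_succ_apply, ← nEval_iW]
      exact EE_iter_mem _ (cons_mem true (join X (nEval (iW (2 * k + 1)) X))) (k + 1)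
    obtain ⟨p, l, hl, h4⟩ := exists_sEval h2
    obtain ⟨s, hs⟩ := hX (Sum.inl (Sum.inr (2 * k + 1, p, p, l))) hn (by rw [hl, hgg])
    rw [Pa76659O.mach, if_pos hd', hkp, ← h4] at hs
    exact hs rfl

/-- an inclusion outside of the set is an equality -/
theorem chn_down {S : Set ℕ} {m : ℕ} (hm : m ∉ S) {X : Lang} (hU : Univ2 X)
    (hX : ∀ r : Rq, Ok S X r) : chn X (m + 1) ⊆ chn X m := by
  intro A hA
  have hlow : A ∈ Low X ((m + 1) / 2 + 1) := by
    rcases Nat.even_or_odd' (m + 1) with ⟨k, h | h⟩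
    · rw [h, chn_even] at hA
      have e : (m + 1) / 2 = k := by omega
      rw [e]
      exact rlow_low hA
    · rw [h, chn_odd] at hA
      have e : (m + 1) / 2 = k := by omega
      rwa [e]
  obtain ⟨i, hi⟩ := exists_nEval hlow.1
  have h7 : J ((m + 1) / 2 + 1) (ZZ i X) ∈ Sig X ((m + 1) / 2 + 1) := by
    apply hlow.2
    rw [hi]
    exact Sig_subset (ZZ_mem i X) _ (J_mem _ _)
  obtain ⟨p0, l0, hl0, h8⟩ := exists_sEval h7
  have hdel : ∃ (p' p : PIx) (l : List NIx), (m + 1) % 2 = 0 → l.length = (m + 1) / 2 ∧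
      J ((m + 1) / 2) (ZZ i X) = pEval p' (sEval p l X) := by
    rcases Nat.even_or_odd' (m + 1) with ⟨k, h | h⟩
    · have e : (m + 1) / 2 = k := by omega
      rw [h, chn_even] at hA
      have h1 : J k (ZZ i X) ∈ DelSucc X k := by
        apply hA.2
        refine ⟨J k (ZZ i X), ?_, query_mem _⟩
        rw [hi]
        exact Sig_subset (ZZ_mem i X) k (J_mem _ _)
      obtain ⟨C, hC, h2⟩ := h1
      obtain ⟨p, l, hl, h3⟩ := exists_sEval hC
      obtain ⟨p', h4⟩ := exists_pEval h2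
      refine ⟨p', p, l, fun _ => ?_⟩
      rw [e]
      exact ⟨hl, by rw [h4, h3]⟩
    · exact ⟨p0, p0, l0, fun h2 => by omega⟩
  obtain ⟨p', p, l, hl⟩ := hdel
  have hiN : nEval i X ∈ NPO X := by rw [← hi]; exact hlow.1
  rcases hX (Sum.inr (Sum.inr (i, m + 1, (p', p, l), p0, l0))) (by omega)
      (fun h => (hl h).1) hl0 with
    ⟨n, hn, hnm, j, B, h⟩ | ⟨_, j, B, h⟩ | ⟨h2, s, hs⟩ | ⟨s, hs⟩
  · have hne : n ≠ m := by
      rintro rfl
      exact hm hn
    rw [hi]
    exact chn_mono X (show n + 1 ≤ m by omega) (code_chn hU hiN h)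
  · rw [hi]
    exact PO_chn X m (col_mem j B h)
  · exact absurd (congrFun (hl h2).2 s) hs
  · exact absurd (congrFun h8 s) hs

/-- **Every set of inclusions is realised.** -/
theorem lowPatterns (S : Set ℕ) : ∃ X : Lang, (∀ k, Sig X k ≠ Sig X (k + 1)) ∧
    ∀ m, chn X m ≠ chn X (m + 1) ↔ m ∈ S := by
  obtain ⟨X, hU, hX⟩ := exists_oracleL S
  refine ⟨X, inf_of_ok hX, fun m => ⟨fun h => ?_, fun h heq => ?_⟩⟩
  · by_contra hm
    exact h ((chn_succ X m).antisymm (chn_down hm hU hX))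
  · apply wit_not h hX
    rw [heq]
    exact wit_chn h hU hX

end Pool.Agent.Lib.Pa76659L
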