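import Pool.Agent.Lib.Pa76659L.Can2

/-!
Forests of trees which hold the hidden codes of type at least `n`; the codes of smaller type are
filled canonically.
-/

set_option maxHeartbeats 4000000

namespace Pool.Agent.Lib.Pa76659L

open Pool.Agent.Lib.Pa76659 Pool.Agent.Lib.Pa76659.Hier Pool.Agent.Lib.Pa76659O
open Pool.Agent.Lib.Pa76659P (AgreeBelow)

/-! ### restricted trees -/

/-- Positions in a tree of height `κ` in which the first `a` choices are forced to be `0`; the
rest is a tree of height `κ - a`. -/
noncomputable def leafP (g : ℕ) : ℕ → ℕ → ℕ → Str → List ℕ → List ℕ ⊕ Bool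
  | 0, κ, L, r, u => Sum.inl (dec g κ L r u)
  | a + 1, κ, L, r, u => if bi g (r.take g) = 0 then leafP g a (κ - 1) (2 * L) (r.drop L) u
      else Sum.inr (decide ((κ - 1) % 2 = 0))

theorem leafP_getLast (g : ℕ) : ∀ (a κ L : ℕ) (r : Str) (u : List ℕ) (c : ℕ) (p : List ℕ),
    u.getLast? = some c → leafP g a κ L r u = Sum.inl p → p.getLast? = some c
  | 0, κ, L, r, u, c, p, h, hp => by
      rw [leafP] at hp
      simp only [Sum.inl.injEq] at hp
      rw [← hp]
      exact dec_getLast g κ L r u c h
  | a + 1, κ, L, r, u, c, p, h, hp => by
      rw [leafP] at hp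
      split_ifs at hp with h1
      exact leafP_getLast g a (κ - 1) (2 * L) (r.drop L) u c p h hp

theorem QQ_leafP (g : ℕ) (X : Lang) (x : List ℕ → Bool) : ∀ (a κ : ℕ) (s : Str) (u : List ℕ),
    a ≤ κ → g ≤ s.length →
    (∀ r : Str, r.length = (2 ^ κ - 1) * s.length →
      X (s ++ r) = Sum.elim x id (leafP g a κ s.length r u)) →
    QQ κ X s = xor (tr (fun _ => 2 ^ g) (κ - a) x u) (decide (a % 2 = 1))
  | 0, κ, s, u, _, hg, h => by
      have := QQ_trN g X x κ s u hg (fun r hr => h r hr)
      rw [this]
      simp
  | a + 1, 0, s, u, ha, _, _ => by omega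
  | a + 1, κ + 1, s, u, ha, hg, h => by
      have hlen : ∀ y : Str, y.length = s.length → (s ++ y).length = 2 * s.length := by
        intro y hy
        rw [List.length_append, hy]; ring
      have hmul : (2 ^ (κ + 1) - 1) * s.length = s.length + (2 ^ κ - 1) * (2 * s.length) := by
        obtain ⟨d, hd⟩ : ∃ d, 2 ^ κ = d + 1 := ⟨2 ^ κ - 1, by
          have := Nat.one_le_two_pow (n := κ); omega⟩
        rw [pow_succ, hd]
        have : (d + 1) * 2 - 1 = 2 * d + 1 := by omega
        rw [this, Nat.add_sub_cancel]
        ring
      have hr : ∀ y : Str, y.length = s.length → ∀ r : Str,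
          r.length = (2 ^ κ - 1) * (2 * s.length) →
          X (s ++ y ++ r) = Sum.elim x id (if bi g (y.take g) = 0 then
            leafP g a κ (2 * s.length) r u else Sum.inr (decide (κ % 2 = 0))) := by
        intro y hy r hr
        rw [List.append_assoc, h (y ++ r) (by rw [List.length_append, hy, hr, hmul]), leafP]
        rw [List.take_append_of_le_length (by omega), ← hy, List.drop_left]
        simp
      have key0 : ∀ y : Str, y.length = s.length → bi g (y.take g) = 0 →
          QQ κ X (s ++ y) = xor (tr (fun _ => 2 ^ g) (κ - a) x u) (decide (a % 2 = 1)) := by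
        intro y hy hy0
        apply QQ_leafP g X x a κ (s ++ y) u (by omega) (by rw [hlen y hy]; omega)
        intro r hr'
        rw [hlen y hy] at hr' ⊢
        rw [hr y hy r hr', if_pos hy0]
      have key1 : ∀ y : Str, y.length = s.length → bi g (y.take g) ≠ 0 →
          QQ κ X (s ++ y) = true := by
        intro y hy hy0
        have h1 := iter_const X (decide (κ % 2 = 0)) κ (s ++ y) (by
          intro r hr'
          rw [hlen y hy] at hr'
          rw [hr y hy r hr', if_neg hy0]
          rfl)
        unfold QQ
        rw [h1]
        by_cases hk : κ % 2 = 0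
        · have : ¬ κ % 2 = 1 := by omega
          simp [hk, this]
        · have : κ % 2 = 1 := by omega
          simp [this]
      have hz : ∃ y : Str, y.length = s.length ∧ bi g (y.take g) = 0 := by
        refine ⟨bs g 0 ++ List.replicate (s.length - g) false, ?_, ?_⟩
        · rw [List.length_append, bs_length, List.length_replicate]; omega
        · have : (bs g 0 ++ List.replicate (s.length - g) false).take g = bs g 0 := by
            have := bs_length g 0
            rw [List.take_append_of_le_length (by omega), List.take_of_length_le (by omega)]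
          rw [this, bi_bs (by positivity)]
      have e1 : κ + 1 - (a + 1) = κ - a := by omega
      have e2 : decide ((a + 1) % 2 = 1) = !(decide (a % 2 = 1)) := by
        by_cases hk : a % 2 = 1
        · have : ¬ (a + 1) % 2 = 1 := by omega
          simp [hk, this]
        · have : (a + 1) % 2 = 1 := by omega
          simp [hk, this]
      rw [e1, e2, QQ_succ, Bool.eq_iff_iff, EE_true]
      constructor
      · rintro ⟨y, hy, hy2⟩
        by_cases hy0 : bi g (y.take g) = 0
        · rw [key0 y hy hy0] at hy2
          revert hy2
          cases tr (fun _ => 2 ^ g) (κ - a) x u <;> cases decide (a % 2 = 1) <;> simp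
        · rw [key1 y hy hy0] at hy2
          simp at hy2
      · intro h1
        obtain ⟨y, hy, hy0⟩ := hz
        refine ⟨y, hy, ?_⟩
        rw [key0 y hy hy0]
        revert h1
        cases tr (fun _ => 2 ^ g) (κ - a) x u <;> cases decide (a % 2 = 1) <;> simp

/-! ### the forest for the codes of type at least `n` -/

/-- number of trees for the first `m` contents -/
def rtt (P : Par) (m : ℕ) : ℕ := if P.d = true then 3 * m else m

theorem rtt_add (P : Par) (a b : ℕ) : rtt P (a + b) = rtt P b + rtt P a := by
  unfold rtt; split_ifs <;> ring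

theorem rtt_mono (P : Par) {a b : ℕ} (h : a ≤ b) : rtt P a ≤ rtt P b := by
  unfold rtt; split_ifs <;> omega

theorem rtt_le (P : Par) (a : ℕ) : rtt P a ≤ 3 * a := by
  unfold rtt; split_ifs <;> omega

/-- the trees with number `c` hold the content `v` -/
def TV (P : Par) (g : ℕ) (x : List ℕ → Bool) (c : ℕ) (v : Bool) : Prop :=
  if P.d = true then
    xor (tr (fun _ => 2 ^ g) P.h x [3 * c]) (tr (fun _ => 2 ^ g) P.h x [3 * c + 1]) = v ∧
      tr (fun _ => 2 ^ g) (P.h + 1) x [3 * c + 2] = v
  else tr (fun _ => 2 ^ g) P.h x [c] = v

theorem TV_shift (P : Par) (g k : ℕ) (x : List ℕ → Bool) (c : ℕ) (v : Bool) :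
    TV P g (fun p => x (shift (rtt P k) p)) c v ↔ TV P g x (k + c) v := by
  unfold TV rtt
  split_ifs with h
  · rw [tr_shift' _ _ _ _ _ (by simp), tr_shift' _ _ _ _ _ (by simp),
      tr_shift' _ _ _ _ _ (by simp)]
    simp only [shift]
    have e1 : 3 * c + 3 * k = 3 * (k + c) := by ring
    have e2 : 3 * c + 1 + 3 * k = 3 * (k + c) + 1 := by ring
    have e3 : 3 * c + 2 + 3 * k = 3 * (k + c) + 2 := by ring
    rw [e1, e2, e3]
  · rw [tr_shift' _ _ _ _ _ (by simp)]
    simp only [shift]
    rw [Nat.add_comm]

/-- Index of the tree of the code with name `z` and number of forced choices; `none` if the tree is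
constant. Here `P` is the shape for the forest, `P'` the shape of the code. -/
def rt (P P' : Par) (j B : ℕ) (z : Str) : Option (ℕ × ℕ) :=
  if P.d = true then
    if P'.d = true then
      match z with
      | [] => none
      | b :: z => some (3 * rnk (code j B (false :: z)) + (if b = true then 1 else 0), P'.h - P.h)
    else some (3 * rnk (code j B z) + 2, P'.h - (P.h + 1))
  else
    if P'.d = true then
      match z with
      | false :: z => some (rnk (code j B (false :: z)), P'.h - P.h)
      | _ => none
    else some (rnk (code j B z), P'.h - P.h)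

section

variable {P P' : Par} {j B : ℕ} {z : Str}

theorem rt_tt (hd : P.d = true) (hd' : P'.d = true) {b : Bool} : rt P P' j B (b :: z) =
    some (3 * rnk (code j B (false :: z)) + (if b = true then 1 else 0), P'.h - P.h) := by
  unfold rt
  rw [if_pos hd, if_pos hd']

theorem rt_tf (hd : P.d = true) (hd' : ¬ P'.d = true) : rt P P' j B z =
    some (3 * rnk (code j B z) + 2, P'.h - (P.h + 1)) := by
  unfold rt
  rw [if_pos hd, if_neg hd']

theorem rt_ft (hd : ¬ P.d = true) (hd' : P'.d = true) : rt P P' j B (false :: z) =
    some (rnk (code j B (false :: z)), P'.h - P.h) := by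
  unfold rt
  rw [if_neg hd, if_pos hd']

theorem rt_ft' (hd : ¬ P.d = true) (hd' : P'.d = true) : rt P P' j B (true :: z) = none := by
  unfold rt
  rw [if_neg hd, if_pos hd']

theorem rt_ff (hd : ¬ P.d = true) (hd' : ¬ P'.d = true) : rt P P' j B z =
    some (rnk (code j B z), P'.h - P.h) := by
  unfold rt
  rw [if_neg hd, if_neg hd']

end

theorem code_length_cons (j B : ℕ) (b b' : Bool) (z : Str) :
    (code j B (b :: z)).length = (code j B (b' :: z)).length := by
  rw [code_length, code_length]; simp

theorem rt_lt {P P' : Par} {j B : ℕ} {z : Str} {ρ a : ℕ} (h : rt P P' j B z = some (ρ, a)) :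
    ρ < rtt P (2 ^ ((code j B z).length + 1)) := by
  unfold rt at h
  unfold rtt
  by_cases hd : P.d = true
  · rw [if_pos hd] at h ⊢
    by_cases hd' : P'.d = true
    · rw [if_pos hd'] at h
      rcases z with _ | ⟨b, z⟩
      · simp at h
      · simp only [Option.some.injEq, Prod.mk.injEq] at h
        have h1 := rnk_lt (code j B (false :: z))
        rw [code_length_cons j B false b z] at h1
        obtain ⟨rfl, _⟩ := h
        split_ifs <;> omega
    · rw [if_neg hd'] at h
      simp only [Option.some.injEq, Prod.mk.injEq] at h
      have h1 := rnk_lt (code j B z)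
      omega
  · rw [if_neg hd] at h ⊢
    by_cases hd' : P'.d = true
    · rw [if_pos hd'] at h
      rcases z with _ | ⟨_ | _, z⟩
      · simp at h
      · simp only [Option.some.injEq, Prod.mk.injEq] at h
        have h1 := rnk_lt (code j B (false :: z))
        omega
      · simp at h
    · rw [if_neg hd'] at h
      simp only [Option.some.injEq, Prod.mk.injEq] at h
      have h1 := rnk_lt (code j B z)
      omega

/-- the trees of shorter codes come before -/
theorem rt_lt_of_len {P P' P'' : Par} {j B j' B' : ℕ} {z z' : Str} {ρ a : ℕ}
    (h : rt P P' j B z = some (ρ, a))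
    (hl : (code j B z).length < (code j' B' (nm P'' z')).length) :
    ρ < rtt P (rnk (code j' B' (nm P'' z'))) := by
  unfold rt at h
  unfold rtt
  by_cases hd : P.d = true
  · rw [if_pos hd] at h ⊢
    by_cases hd' : P'.d = true
    · rw [if_pos hd'] at h
      rcases z with _ | ⟨b, z⟩
      · simp at h
      · simp only [Option.some.injEq, Prod.mk.injEq] at h
        rw [code_length_cons j B b false z] at hl
        have h1 := rnk_lt_of_len hl
        obtain ⟨rfl, _⟩ := h
        split_ifs <;> omega
    · rw [if_neg hd'] at h
      simp only [Option.some.injEq, Prod.mk.injEq] at h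
      have h1 := rnk_lt_of_len hl
      omega
  · rw [if_neg hd] at h ⊢
    by_cases hd' : P'.d = true
    · rw [if_pos hd'] at h
      rcases z with _ | ⟨_ | _, z⟩
      · simp at h
      · simp only [Option.some.injEq, Prod.mk.injEq] at h
        have h1 := rnk_lt_of_len hl
        omega
      · simp at h
    · rw [if_neg hd'] at h
      simp only [Option.some.injEq, Prod.mk.injEq] at h
      have h1 := rnk_lt_of_len hl
      omega

/-- position of a leaf of the code with name `z` -/
noncomputable def leafQ (P P' : Par) (g j B : ℕ) (z r : Str) : List ℕ ⊕ Bool :=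
  match rt P P' j B z with
  | some (ρ, a) => leafP g a P'.h (code j B z).length r [ρ]
  | none => Sum.inr (decide (P'.h % 2 = 1))

/-- the sign of the content -/
def sgn (P P' : Par) : Bool :=
  if P.d = true then (if P'.d = true then false else decide ((P'.h - (P.h + 1)) % 2 = 1))
  else decide ((P'.h - P.h) % 2 = 1)

/-- the shape of the code is above the shape of the forest -/
def Above (P P' : Par) : Prop :=
  P.h ≤ P'.h ∧ (P.d = true → ¬ P'.d = true → P.h + 1 ≤ P'.h)

theorem above_par {n k : ℕ} (h : n ≤ k) : Above (par n) (par k) := by
  unfold Above par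
  simp only [decide_eq_true_eq]
  constructor
  · omega
  · intro h1 h2
    omega

/-- the value of a code tree which is filled by the positions -/
theorem cd_leafQ {P P' : Par} {g j B : ℕ} {x : List ℕ → Bool} {X : Lang} {z : Str}
    (hP : Above P P') (hg : g ≤ (code j B z).length)
    (h : ∀ r : Str, (code j B z ++ r).length = (code j B z).length * 2 ^ P'.h →
      X (code j B z ++ r) = Sum.elim x id (leafQ P P' g j B z r)) :
    cd P' j B X z = match rt P P' j B z with
      | some (ρ, a) => xor (tr (fun _ => 2 ^ g) (P'.h - a) x [ρ]) (decide (a % 2 = 1))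
      | none => false := by
  have hr : ∀ r : Str, r.length = (2 ^ P'.h - 1) * (code j B z).length →
      X (code j B z ++ r) = Sum.elim x id (leafQ P P' g j B z r) := by
    intro r hr
    apply h
    rw [List.length_append, hr, Nat.sub_mul, one_mul, mul_comm (2 ^ P'.h)]
    have : (code j B z).length * 1 ≤ (code j B z).length * 2 ^ P'.h :=
      Nat.mul_le_mul_left _ Nat.one_le_two_pow
    omega
  unfold cd
  cases hrt : rt P P' j B z with
  | none =>
      simp only
      unfold QQ
      rw [iter_const X (decide (P'.h % 2 = 1)) P'.h (code j B z) (by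
        intro r hr'
        rw [hr r hr', leafQ, hrt]
        rfl)]
      simp
  | some w =>
      obtain ⟨ρ, a⟩ := w
      simp only
      apply QQ_leafP g X x a P'.h (code j B z) [ρ]
      · unfold rt at hrt
        split_ifs at hrt with h1 h2 h3
        · rcases z with _ | ⟨b, z⟩
          · simp at hrt
          · simp only [Option.some.injEq, Prod.mk.injEq] at hrt
            omega
        · simp only [Option.some.injEq, Prod.mk.injEq] at hrt
          omega
        · rcases z with _ | ⟨_ | _, z⟩
          · simp at hrt
          · simp only [Option.some.injEq, Prod.mk.injEq] at hrt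
            omega
          · simp at hrt
        · simp only [Option.some.injEq, Prod.mk.injEq] at hrt
          omega
      · exact hg
      · intro r hr'
        rw [hr r hr', leafQ, hrt]

/-- the decoded value of a code which is filled by the positions -/
theorem val_leafQ {P P' : Par} {g j B : ℕ} {x : List ℕ → Bool} {X : Lang} {z : Str} {v : Bool}
    (hP : Above P P') (hg : g ≤ (code j B (nm P' z)).length)
    (h : ∀ z' r : Str, z'.length = (nm P' z).length →
      (code j B z' ++ r).length = (code j B z').length * 2 ^ P'.h →
      X (code j B z' ++ r) = Sum.elim x id (leafQ P P' g j B z' r))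
    (hv : TV P g x (rnk (code j B (nm P' z))) v) :
    val P' j B X z = xor v (sgn P P') := by
  have hcd : ∀ z' : Str, z'.length = (nm P' z).length →
      cd P' j B X z' = match rt P P' j B z' with
        | some (ρ, a) => xor (tr (fun _ => 2 ^ g) (P'.h - a) x [ρ]) (decide (a % 2 = 1))
        | none => false := by
    intro z' hz'
    apply cd_leafQ hP
    · have : (code j B z').length = (code j B (nm P' z)).length := by
        rw [code_length, code_length, hz']
      omega
    · intro r hr
      exact h z' r hz' hr
  obtain ⟨hP1, hP2⟩ := hP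
  unfold val sgn
  unfold TV at hv
  by_cases hd' : P'.d = true
  · have hnm : nm P' z = false :: z := by unfold nm; rw [if_pos hd']
    rw [if_pos hd', hcd (false :: z) (by rw [hnm]), hcd (true :: z) (by rw [hnm]; simp)]
    rw [hnm] at hv
    have e : P'.h - (P'.h - P.h) = P.h := by omega
    by_cases hd : P.d = true
    · rw [if_pos hd] at hv
      rw [rt_tt hd hd', rt_tt hd hd', if_pos hd, if_pos hd']
      simp only [Bool.false_eq_true, if_false, if_true, Nat.add_zero]
      rw [e, ← hv.1]
      cases tr (fun _ => 2 ^ g) P.h x [3 * rnk (code j B (false :: z))] <;>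
        cases tr (fun _ => 2 ^ g) P.h x [3 * rnk (code j B (false :: z)) + 1] <;>
        simp
    · rw [if_neg hd] at hv
      rw [rt_ft hd hd', rt_ft' hd hd', if_neg hd]
      simp only
      rw [e, ← hv]
      simp
  · have hnm : nm P' z = z := by unfold nm; rw [if_neg hd']
    rw [if_neg hd', hcd z (by rw [hnm])]
    rw [hnm] at hv
    by_cases hd : P.d = true
    · rw [if_pos hd] at hv
      have e : P'.h - (P'.h - (P.h + 1)) = P.h + 1 := by
        have := hP2 hd hd'
        omega
      rw [rt_tf hd hd', if_pos hd, if_neg hd']
      simp only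
      rw [e, ← hv.2]
    · rw [if_neg hd] at hv
      have e : P'.h - (P'.h - P.h) = P.h := by omega
      rw [rt_ff hd hd', if_neg hd]
      simp only
      rw [e, ← hv]

end Pool.Agent.Lib.Pa76659L
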