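import Pool.Agent.Lib.Pa76659L.DiffW
import Pool.Agent.Lib.Pa76659L.Inf

/-!
The construction of the oracle for a given set of proper inclusions.
-/

set_option maxHeartbeats 4000000

namespace Pool.Agent.Lib.Pa76659L

open Pool.Agent.Lib.Pa76659 Pool.Agent.Lib.Pa76659P Pool.Agent.Lib.Pa76659.Hier
  Pool.Agent.Lib.Pa76659O

/-- requirements -/
abbrev Rq := ((PIx × List NIx) ⊕ (ℕ × PIx × PIx × List NIx)) ⊕
  ((ℕ × PIx × List NIx) ⊕ (NIx × ℕ × (PIx × PIx × List NIx) × PIx × List NIx))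

/-- the requirement is met by the oracle -/
def Ok (S : Set ℕ) (X : Lang) : Rq → Prop
  | Sum.inl (Sum.inl (p, l)) => ¬ Gen p l X ∨
      ∃ s : Str, sEval p l X s ≠ J (l.length + 1) (join X X) s
  | Sum.inl (Sum.inr (n, p', p, l)) => n ∈ S → l.length = gg (par n) →
      ∃ s : Str, mach (par n) p' p l X s ≠ QQ (kp (par n)) (regW n X) s
  | Sum.inr (Sum.inl (n, p0, l0)) => n ∈ S → l0.length = 1 →
      (∃ j B, ∀ z, val (par n) j B X z = cnt (par n) (iW n) X z) ∨
      (∃ s : Str, J 1 (ZZ i0 X) s ≠ sEval p0 l0 X s)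
  | Sum.inr (Sum.inr (i, m, (p', p, l), p0, l0)) => 1 ≤ m → (m % 2 = 0 → l.length = m / 2) →
      l0.length = m / 2 + 1 →
      (∃ n ∈ S, n < m ∧ ∃ j B, ∀ z, val (par n) j B X z = cnt (par n) i X z) ∨
      ((∀ t ∈ S, m ≤ t) ∧ ∃ j B, ∀ x, X (code j B x) = nEval i X x) ∨
      (m % 2 = 0 ∧ ∃ s : Str, J (m / 2) (ZZ i X) s ≠ pEval p' (sEval p l X) s) ∨
      (∃ s : Str, J (m / 2 + 1) (ZZ i X) s ≠ sEval p0 l0 X s)

/-- the invariant of the construction -/
structure Inv (S : Set ℕ) (q : QC) : Prop where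
  can : ∃ K, GoodC (K + 1) q
  adv : ∀ n ∈ S, GoodA n q
  univ : ∀ X, Mem q X → Univ2 X

theorem inv_freeze {S : Set ℕ} {q : QC} (hq : WF q) (h : Inv S q) {X : Lang} (hX : Mem q X)
    {M : ℕ} (hM : q.N ≤ M) : Inv S (freeze q X M) := by
  obtain ⟨K, hK⟩ := h.can
  exact ⟨⟨K, goodC_freeze hq hK hX hM⟩, fun n hn => goodA_freeze hq (h.adv n hn) hX hM,
    fun X' hX' => h.univ X' (freeze_mem hq hX hM hX')⟩

theorem loc_regW (k : ℕ) : Loc (regW k) := by
  intro n
  refine ⟨n + k + 3, fun O O' h x hx => ?_⟩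
  unfold regW
  apply h
  simp only [List.length_append, preW_length]
  omega

/-- what a step of the construction has to provide -/
def Step (S : Set ℕ) (q : QC) (R : Lang → Prop) : Prop := ∃ q' : QC, WF q' ∧ Inv S q' ∧
  q.N < q'.N ∧ (∀ X, Mem q' X → Mem q X) ∧ ∀ X, Mem q' X → R X

/-- freeze a property of a member -/
theorem step_freeze {S : Set ℕ} {q : QC} (hq : WF q) (hi : Inv S q) {X : Lang} (hX : Mem q X)
    {R : Lang → Prop} (m : ℕ) (h : ∀ X' : Lang, (∀ v : Str, v.length < m → X' v = X v) → R X') :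
    Step S q R := by
  have hNM : q.N ≤ max (q.N + 1) m := by omega
  refine ⟨freeze q X (max (q.N + 1) m), freeze_wf hq X hNM, inv_freeze hq hi hX hNM, ?_,
    fun X' hX' => freeze_mem hq hX hNM hX', fun X' hX' => h X' ?_⟩
  · show q.N < max (q.N + 1) m
    omega
  · intro v hv
    apply hX'.low
    show v.length < max (q.N + 1) m
    omega

theorem step_skip {S : Set ℕ} {q : QC} (hq : WF q) (hi : Inv S q) {R : Lang → Prop}
    (h : ∀ X, R X) : Step S q R := by
  obtain ⟨X, hX⟩ := exists_mem hq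
  exact step_freeze hq hi hX 0 (fun X' _ => h X')

/-- freeze a difference of two local operators -/
theorem step_diff {S : Set ℕ} {q : QC} (hq : WF q) (hi : Inv S q) {X : Lang} (hX : Mem q X)
    {F G : Lang → Lang} (hF : Loc F) (hG : Loc G) {s : Str} (hs : F X s ≠ G X s)
    {R : Lang → Prop} (h : ∀ X' : Lang, F X' s ≠ G X' s → R X') : Step S q R := by
  obtain ⟨m1, hm1⟩ := hF s.length
  obtain ⟨m2, hm2⟩ := hG s.length
  refine step_freeze hq hi hX (max m1 m2 + 1) (fun X' h' => h X' ?_)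
  rw [hm1 X' X (fun v hv => h' v (by omega)) s le_rfl,
    hm2 X' X (fun v hv => h' v (by omega)) s le_rfl]
  exact hs

theorem step_gen {S : Set ℕ} {q : QC} (hq : WF q) (hi : Inv S q) (p : PIx) (l : List NIx) :
    Step S q (fun X => Ok S X (Sum.inl (Sum.inl (p, l)))) := by
  obtain ⟨K, hK⟩ := hi.can
  by_cases hG : ∃ X, Mem q X ∧ ¬ Gen p l X
  · obtain ⟨X, hX, hG⟩ := hG
    obtain ⟨m, hm⟩ := gen_local hG
    exact step_freeze hq hi hX (m + 1) (fun X' h => Or.inl (hm X' (fun v hv => h v (by omega))))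
  · push Not at hG
    obtain ⟨X, hX, hinf⟩ := exists_infinite hq hK
    have h1 : sEval p l X ≠ J (l.length + 1) (join X X) := by
      intro h
      apply univ_not_mem (univ_of_univ2 (hi.univ X hX)) hinf l.length
      rw [← h]
      exact sEval_mem (hG X hX)
    obtain ⟨s, hs⟩ := Function.ne_iff.1 h1
    exact step_diff hq hi hX (loc_sEval p l) ((loc_J (l.length + 1)).comp (loc_join loc_id)) hs
      (fun X' h => Or.inr ⟨s, h⟩)

theorem step_wit {S : Set ℕ} {q : QC} (hq : WF q) (hi : Inv S q) (n : ℕ) (p' p : PIx)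
    (l : List NIx) : Step S q (fun X => Ok S X (Sum.inl (Sum.inr (n, p', p, l)))) := by
  by_cases hn : n ∈ S
  swap
  · exact step_skip hq hi (fun X h => absurd h hn)
  by_cases hl : l.length = gg (par n)
  · obtain ⟨X, hX, s, hs⟩ := exists_diffW hq (hi.adv n hn) p' p l hl
    exact step_diff hq hi hX (loc_mach (par n) p' p l)
      ((loc_QQ (kp (par n))).comp (loc_regW n)) hs (fun X' h _ _ => ⟨s, h⟩)
  · exact step_skip hq hi (fun X _ h => absurd h hl)

/-- the condition after a new code -/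
theorem step_code {S : Set ℕ} {q : QC} (hq : WF q) (hi : Inv S q) {b : Option ℕ} {i : NIx}
    (hlit : ∀ K, ∃ K', K ≤ K' ∧ ∀ q', WF q' → (∀ X, Mem q' X → Mem q X) → GoodC (K' + 1) q' →
      ∀ j B, LitE (K' + 1) q' j b i B)
    (hadv : ∀ q', WF q' → (∀ X, Mem q' X → Mem q X) → ∀ n ∈ S, GoodA n q' → ∀ j B, GoodB b i B →
      q'.E j = none → GoodA n (addc q' j b i B))
    {R : Lang → Prop} (hR : ∀ X j B,
      (∀ k, b = some k → ∀ z, val (par k) j B X z = cnt (par k) i X z) →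
      (b = none → ∀ x, X (code j B x) = nEval i X x) → R X) : Step S q R := by
  obtain ⟨K, hK⟩ := hi.can
  obtain ⟨K', hKK, hlit'⟩ := hlit K
  have hg1 := hK.mono (show K + 1 ≤ K' + 1 by omega)
  obtain ⟨X0, hX0⟩ := exists_mem hq
  have hNM : q.N ≤ 2 * q.N + 2 := by omega
  obtain ⟨B, hB⟩ := exists_goodB b i
  have hq2 := freeze_wf hq X0 hNM
  have hi2 := inv_freeze hq hi hX0 hNM
  have hg2 := goodC_freeze hq hg1 hX0 hNM
  have hE : (freeze q X0 (2 * q.N + 2)).E (2 * q.N + 3) = none :=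
    hq.fin (2 * q.N + 3) (by omega)
  have hN3 : (freeze q X0 (2 * q.N + 2)).N ≤ (2 * q.N + 3) + 3 := by
    show 2 * q.N + 2 ≤ _; omega
  have hjN : 2 * q.N + 3 < (freeze q X0 (2 * q.N + 2)).N + 2 := by
    show _ < 2 * q.N + 2 + 2; omega
  have hodd : (2 * q.N + 3) % 2 = 1 := by omega
  have hdn : ∀ X, Mem (freeze q X0 (2 * q.N + 2)) X → Mem q X := fun X h =>
    freeze_mem hq hX0 hNM h
  have hlit2 := hlit' _ hq2 hdn hg2 (2 * q.N + 3) B
  have hdown : ∀ X, Mem (addc (freeze q X0 (2 * q.N + 2)) (2 * q.N + 3) b i B) X →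
      Mem q X := fun X hX => hdn X (addc_mem hE hX)
  refine ⟨addc (freeze q X0 (2 * q.N + 2)) (2 * q.N + 3) b i B,
    addc_wf hq2 hB hjN hodd,
    ⟨⟨K', goodC_addc hq2 hlit2 hB hE hg2 hjN hodd⟩,
      fun n hn => hadv _ hq2 hdn n hn (hi2.adv n hn) _ _ hB hE,
      fun X hX => hi.univ X (hdown X hX)⟩, ?_, hdown, ?_⟩
  · show q.N < 2 * q.N + 2; omega
  · intro X hX
    apply hR X (2 * q.N + 3) B
    · rintro k rfl z
      exact addc_hid hN3 hX z
    · rintro rfl x
      exact addc_col hN3 hX x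

theorem LOW_down {K : ℕ} {q q' : QC} {i : NIx} {p0 : PIx} {l0 : List NIx}
    (hd : ∀ X, Mem q' X → Mem q X) (h : LOW K q i p0 l0) : LOW K q' i p0 l0 :=
  fun X hX s => h X (hd X hX) s

/-- literals from lowness -/
theorem lit_of_low {q : QC} {b : Option ℕ} {i : NIx} {k : ℕ} {p0 : PIx} {l0 : List NIx}
    (hl : l0.length = k + 1) (h : LOW (k + 1) q i p0 l0) (K : ℕ) :
    ∃ K', K ≤ K' ∧ ∀ q', WF q' → (∀ X, Mem q' X → Mem q X) → GoodC (K' + 1) q' →
      ∀ j B, LitE (K' + 1) q' j b i B := by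
  obtain ⟨l1, hl1, hlow1⟩ := LOW_add h hl K
  refine ⟨k + K, by omega, fun q' hq' hd hg j B => ?_⟩
  have e1 : k + 1 + K = (k + K) + 1 := by ring
  rw [e1] at hl1 hlow1
  exact litE_of_low hq' hg hl1 (LOW_down hd hlow1) j b B

/-- the machine which asks its input -/
theorem pEval_id (Y : Lang) : pEval (Prog.query 0 0, 1) Y = Y := by
  funext x
  have h := (exec_query (O := Y) 0 0 (inp x)).halts (N := 1) le_rfl
  unfold pEval
  simp only [Polynomial.eval_one]
  rw [h.2]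
  simp [inp]

/-- machines for the later inclusions -/
theorem lowm_of {q : QC} {i : NIx} {m : ℕ} {p0 : PIx} {l0 : List NIx} {p' p : PIx}
    {l : List NIx} (hl0 : l0.length = m / 2 + 1) (h0 : LOW (m / 2 + 1) q i p0 l0)
    (h1 : m % 2 = 0 → l.length = m / 2 ∧ ∀ X, Mem q X → ∀ s : Str,
      J (m / 2) (ZZ i X) s = pEval p' (sEval p l X) s) {n : ℕ} (hn : m ≤ n) :
    ∃ p'' p1 l1, l1.length = gg (par n) ∧ LOWm n q i p'' p1 l1 := by
  by_cases hc : n = m ∧ m % 2 = 0
  · obtain ⟨rfl, hc2⟩ := hc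
    obtain ⟨h2, h3⟩ := h1 hc2
    have hd : ¬ (par n).d = true := by simp [par, hc2]
    have hgg : gg (par n) = n / 2 := by
      unfold gg
      rw [if_neg hd]
      simp [par]
    refine ⟨p', p, l, by rw [hgg, h2], fun X hX s => ?_⟩
    rw [hgg, Pa76659O.mach, if_neg hd]
    exact h3 X hX s
  · have hgg : m / 2 + 1 ≤ gg (par n) := by
      unfold gg par
      dsimp only
      split_ifs with h4
      · omega
      · simp only [decide_eq_true_eq] at h4
        omega
    obtain ⟨l1, hl1, hlow1⟩ := LOW_add h0 hl0 (gg (par n) - (m / 2 + 1))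
    have e1 : m / 2 + 1 + (gg (par n) - (m / 2 + 1)) = gg (par n) := by omega
    rw [e1] at hl1 hlow1
    refine ⟨(Prog.query 0 0, 1), p0, l1, hl1, fun X hX s => ?_⟩
    rw [hlow1 X hX s, Pa76659O.mach]
    split_ifs
    · rfl
    · rw [pEval_id]

theorem gg_pos {m n : ℕ} (hm : 1 ≤ m) (hn : m ≤ n) : ∃ K, gg (par n) = K + 1 := by
  refine ⟨gg (par n) - 1, ?_⟩
  unfold gg par
  dsimp only
  split_ifs with h4
  · omega
  · simp only [decide_eq_true_eq] at h4
    omega

theorem step_hid {S : Set ℕ} {q : QC} (hq : WF q) (hi : Inv S q) (n : ℕ) (p0 : PIx)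
    (l0 : List NIx) : Step S q (fun X => Ok S X (Sum.inr (Sum.inl (n, p0, l0)))) := by
  by_cases hl0 : l0.length = 1
  swap
  · exact step_skip hq hi (fun X _ h => absurd h hl0)
  by_cases hlow : LOW 1 q i0 p0 l0
  · refine step_code (b := some n) (i := iW n) hq hi ?_ ?_
      (fun X j B h1 _ _ _ => Or.inl ⟨j, B, h1 n rfl⟩)
    · intro K
      obtain ⟨K', h1, h2⟩ := lit_of_low (b := some n) (k := 0) hl0 hlow K
      exact ⟨K', h1, fun q' hq' hd hg j B => litE_witness (h2 q' hq' hd hg j B) n⟩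
    · intro q' hq' hd m hm hg j B hB hE
      by_cases hmn : m ≤ n
      · exact goodA_hid hg hmn hE
      · obtain ⟨K, hK⟩ := gg_pos (m := 1) (n := m) le_rfl (by omega)
        obtain ⟨l1, hl1, hlow1⟩ := LOW_add hlow hl0 (gg (par m) - 1)
        have e1 : 1 + (gg (par m) - 1) = gg (par m) := by omega
        rw [e1] at hl1 hlow1
        refine goodA_addc hq' hg hK (by rintro k hk; simp at hk; omega) hB hE hl1
          (p' := (Prog.query 0 0, 1)) (p := p0) (fun X hX s => ?_) (litTo_wit (by omega) q')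
        rw [hlow1 X (hd X hX) s, Pa76659O.mach]
        split_ifs
        · rfl
        · rw [pEval_id]
  · unfold LOW at hlow
    push Not at hlow
    obtain ⟨X, hX, s, hs⟩ := hlow
    exact step_diff hq hi hX ((loc_J 1).comp (loc_ZZ i0)) (loc_sEval p0 l0) hs
      (fun X' h _ _ => Or.inr ⟨s, h⟩)

theorem step_pcol {S : Set ℕ} {q : QC} (hq : WF q) (hi : Inv S q) (i : NIx) (m : ℕ)
    (p' p : PIx) (l : List NIx) (p0 : PIx) (l0 : List NIx) :
    Step S q (fun X => Ok S X (Sum.inr (Sum.inr (i, m, (p', p, l), p0, l0)))) := by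
  classical
  by_cases hm : 1 ≤ m
  swap
  · exact step_skip hq hi (fun X h => absurd h hm)
  by_cases hl : m % 2 = 0 → l.length = m / 2
  swap
  · exact step_skip hq hi (fun X _ h => absurd h hl)
  by_cases hl0 : l0.length = m / 2 + 1
  swap
  · exact step_skip hq hi (fun X _ _ h => absurd h hl0)
  by_cases hlow : LOW (m / 2 + 1) q i p0 l0
  swap
  · unfold LOW at hlow
    push Not at hlow
    obtain ⟨X, hX, s, hs⟩ := hlow
    exact step_diff hq hi hX ((loc_J (m / 2 + 1)).comp (loc_ZZ i)) (loc_sEval p0 l0) hs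
      (fun X' h _ _ _ => Or.inr (Or.inr (Or.inr ⟨s, h⟩)))
  by_cases hlm : m % 2 = 0 → ∀ X, Mem q X → ∀ s : Str,
      J (m / 2) (ZZ i X) s = pEval p' (sEval p l X) s
  swap
  · push Not at hlm
    obtain ⟨hm2, X, hX, s, hs⟩ := hlm
    exact step_diff (G := fun X => pEval p' (sEval p l X)) hq hi hX
      ((loc_J (m / 2)).comp (loc_ZZ i)) ((loc_sEval p' []).comp (loc_sEval p l)) hs
      (fun X' h _ _ _ => Or.inr (Or.inr (Or.inl ⟨hm2, s, h⟩)))
  have key : ∀ n, m ≤ n → ∃ p'' p1 l1, l1.length = gg (par n) ∧ LOWm n q i p'' p1 l1 :=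
    fun n hn => lowm_of hl0 hlow (fun h => ⟨hl h, hlm h⟩) hn
  by_cases hex : ∃ n ∈ S, n < m
  · -- the last proper inclusion before `m`
    obtain ⟨n, ⟨hnS, hnm⟩, hmax⟩ : ∃ n, (n ∈ S ∧ n < m) ∧ ∀ t, t ∈ S ∧ t < m → t ≤ n := by
      obtain ⟨n1, hn1⟩ := hex
      have hf : (Finset.filter (fun t => t ∈ S) (Finset.range m)).Nonempty :=
        ⟨n1, by simp [hn1]⟩
      refine ⟨(Finset.filter (fun t => t ∈ S) (Finset.range m)).max' hf, ?_, ?_⟩
      · have h2 := Finset.max'_mem _ hf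
        simp only [Finset.mem_filter, Finset.mem_range] at h2
        exact ⟨h2.2, h2.1⟩
      · rintro t ⟨ht1, ht2⟩
        exact Finset.le_max' _ _ (by simp [ht1, ht2])
    refine step_code (b := some n) (i := i) hq hi (lit_of_low hl0 hlow) ?_
      (fun X j B h1 _ _ _ _ => Or.inl ⟨n, hnS, hnm, j, B, h1 n rfl⟩)
    intro q' hq' hd n' hn' hg j B hB hE
    by_cases hnn : n' ≤ n
    · exact goodA_hid hg hnn hE
    · have hmn : m ≤ n' := by
        by_contra hcon
        exact hnn (hmax n' ⟨hn', by omega⟩)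
      obtain ⟨K, hK⟩ := gg_pos hm hmn
      obtain ⟨p'', p1, l1, h3, h4⟩ := key n' hmn
      exact goodA_addc hq' hg hK (by rintro k hk; simp at hk; omega) hB hE h3
        (fun X hX s => h4 X (hd X hX) s) (litTo_self n' q' i)
  · push Not at hex
    refine step_code (b := none) (i := i) hq hi (lit_of_low hl0 hlow) ?_
      (fun X j B _ h2 _ _ _ => Or.inr (Or.inl ⟨hex, j, B, h2 rfl⟩))
    intro q' hq' hd n' hn' hg j B hB hE
    have hmn : m ≤ n' := hex n' hn'
    obtain ⟨K, hK⟩ := gg_pos hm hmn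
    obtain ⟨p'', p1, l1, h3, h4⟩ := key n' hmn
    exact goodA_addc hq' hg hK (by rintro k hk; simp at hk) hB hE h3
      (fun X hX s => h4 X (hd X hX) s) (litTo_self n' q' i)

theorem step_all {S : Set ℕ} {q : QC} (hq : WF q) (hi : Inv S q) (r : Rq) :
    Step S q (fun X => Ok S X r) := by
  rcases r with (⟨p, l⟩ | ⟨n, p', p, l⟩) | (⟨n, p0, l0⟩ | ⟨i, m, ⟨p', p, l⟩, p0, l0⟩)
  · exact step_gen hq hi p l
  · exact step_wit hq hi n p' p l
  · exact step_hid hq hi n p0 l0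
  · exact step_pcol hq hi i m p' p l p0 l0

/-- the oracle -/
theorem exists_oracleL (S : Set ℕ) : ∃ X : Lang, Univ2 X ∧ ∀ r : Rq, Ok S X r := by
  have hne : Nonempty Rq := ⟨Sum.inl (Sum.inl ((Prog.skip, 0), []))⟩
  obtain ⟨req, hreq⟩ := exists_surjective_nat Rq
  obtain ⟨τ, hτ⟩ := exists_tables2
  set q0 : QC := ⟨0, fun _ => false, τ, fun _ => none⟩ with hq0def
  have hq0 : WF q0 :=
    ⟨fun j i B h => by simp [hq0def] at h, fun j n i B h => by simp [hq0def] at h,
      fun j _ => rfl, fun j c h => by simp [hq0def] at h⟩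
  have hE0 : ∀ j, q0.E j = none := fun j => rfl
  have hi0 : Inv S q0 :=
    ⟨⟨0, goodC_init 1 hq0 hE0⟩, fun n _ => goodA_init n hE0,
      fun X hX => hτ X fun v hv => hX.tab v (Nat.zero_le _) hv⟩
  obtain ⟨X, hX0, hX⟩ := exists_limit (Inv S) (fun n X => Ok S X (req n)) q0 hq0 hi0
    (fun n q hq hi => step_all hq hi (req n))
  refine ⟨X, hi0.univ X hX0, fun r => ?_⟩
  obtain ⟨n, rfl⟩ := hreq r
  exact hX n

end Pool.Agent.Lib.Pa76659L
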