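import Pool.Agent.Lib.Pa76659L.World

/-!
Representations of the machines by circuits over the strings of the oracle and the positions of a
forest which holds auxiliary contents.
-/

set_option maxHeartbeats 4000000

namespace Pool.Agent.Lib.Pa76659L

open Pool.Agent.Lib.Pa76659 Pool.Agent.Lib.Pa76659.Hier Pool.Agent.Lib.Pa76659O
open Pool.Agent.Lib.Pa76659P (AgreeBelow qin_univ)

/-- variables of the representations -/
def SV (P : Par) (S : Set Str) (m : ℕ) : Set (Str ⊕ List ℕ) :=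
  {u | (∀ v, u = Sum.inl v → v ∈ S) ∧
    ∀ p, u = Sum.inr p → ∃ r, p.getLast? = some r ∧ r < rtt P m}

theorem SV_mono {P : Par} {S S' : Set Str} {m m' : ℕ} (h : S ⊆ S') (hm : m ≤ m') :
    SV P S m ⊆ SV P S' m' := by
  rintro u ⟨h1, h2⟩
  refine ⟨fun v hv => h (h1 v hv), fun p hp => ?_⟩
  obtain ⟨r, h3, h4⟩ := h2 p hp
  exact ⟨r, h3, lt_of_lt_of_le h4 (rtt_mono P hm)⟩

/-- representation; `2 ^ g` is the fan-in of the trees -/
def RepF (P : Par) (g n0 b : ℕ) (S : Set Str) (VX : Set Lang) {ι : Type} (f : ι → Lang → Bool) :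
    Prop :=
  ∃ m : ℕ, m ≤ 2 ^ (n0 ^ b) ∧ ∃ cont : ℕ → Lang → (List ℕ → Bool) → Bool,
    (∀ r X x x', AgreeBelow (rtt P r) x x' → cont r X x = cont r X x') ∧
    ∃ M : ℕ, M ≤ 2 ^ (n0 ^ b) ∧ ∃ Q : Fin M → (Str ⊕ List ℕ → Bool) → Bool,
      (∀ ν, IsC (SV P S m) (n0 ^ b) (n0 ^ b) (gg P) (Q ν)) ∧
      ∃ T : ι → DT (Fin M) Bool, (∀ i, TOK P (n0 ^ b) (T i)) ∧
        ∀ X ∈ VX, ∀ x : List ℕ → Bool, (∀ r < m, TV P g x r (cont r X x)) →
          ∀ i, (T i).eval (fun ν => Q ν (Sum.elim X x)) = f i X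

theorem RepF.mono {P : Par} {g n0 b b' : ℕ} (hn : 1 ≤ n0) (hb : b ≤ b') {S S' : Set Str}
    (hS : S ⊆ S') {VX VX' : Set Lang} (hV : VX' ⊆ VX) {ι : Type} {f : ι → Lang → Bool}
    (h : RepF P g n0 b S VX f) : RepF P g n0 b' S' VX' f := by
  obtain ⟨m, hm, cont, hc, M, hM, Q, hQ, T, hT, h1⟩ := h
  have h2 : n0 ^ b ≤ n0 ^ b' := Nat.pow_le_pow_right hn hb
  have h3 : 2 ^ (n0 ^ b) ≤ 2 ^ (n0 ^ b') := Nat.pow_le_pow_right (by norm_num) h2
  exact ⟨m, hm.trans h3, cont, hc, M, hM.trans h3, Q,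
    fun ν => (hQ ν).mono (SV_mono hS le_rfl) h2 h2, T, fun i => (hT i).mono h2,
    fun X hX => h1 X (hV hX)⟩

/-- strings which are not determined -/
def FreeA (n : ℕ) (q : QC) (v : Str) : Prop :=
  ¬ isTab v ∧ ¬ isP q v ∧ (∀ k < n, ¬ isHn q k v) ∧ ¬ isWlt n v

/-- strings -/
def SA (n : ℕ) (q : QC) (n0 b : ℕ) : Set Str := {v | n0 ≤ v.length ∧ v.length ≤ n0 ^ b ∧ FreeA n q v}

theorem SA_mono {n : ℕ} {q : QC} {n0 b b' : ℕ} (hn : 1 ≤ n0) (hb : b ≤ b') :
    SA n q n0 b ⊆ SA n q n0 b' :=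
  fun _ ⟨h1, h2, h3⟩ => ⟨h1, h2.trans (Nat.pow_le_pow_right hn hb), h3⟩

/-- bound for the heights of the codes -/
def HB (H : ℕ) (q : QC) : Prop := ∀ j k i B, q.E j = some (some k, i, B) → (par k).h ≤ H

/-- the machines have representations on the members -/
def GoodA (n : ℕ) (q : QC) : Prop := ∀ H : ℕ, (par n).h ≤ H → HB H q →
  ∀ (p' p : PIx) (l : List NIx) (a : ℕ), l.length = gg (par n) →
  ∃ b n1 : ℕ, ∀ n0 : ℕ, n1 ≤ n0 → ∀ Y0 : Lang, Mem q Y0 →
    RepF (par n) (n0 / 2 ^ H) n0 b (SA n q n0 b) {X | InA n q n0 Y0 X}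
      (fun (z : {z : Str // z.length ≤ n0 ^ a}) X => mach (par n) p' p l X z.1)

theorem InA.freeze {n : ℕ} {q : QC} (hq : WF q) {X : Lang} (hX : Mem q X) {M : ℕ} (hM : q.N ≤ M)
    {n0 : ℕ} {Y0 X' : Lang} (h : InA n (freeze q X M) n0 Y0 X') : InA n q n0 Y0 X' :=
  ⟨freeze_mem hq hX hM h.mem, h.lt, h.leaf, h.wit⟩

theorem goodA_freeze {n : ℕ} {q : QC} (hq : WF q) (hg : GoodA n q) {X : Lang} (hX : Mem q X)
    {M : ℕ} (hM : q.N ≤ M) : GoodA n (freeze q X M) := by
  intro H hH hHB p' p l a hl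
  obtain ⟨b, n1, h⟩ := hg H hH hHB p' p l a hl
  refine ⟨b, max n1 1, fun n0 hn Y0 hY0 => ?_⟩
  refine (h n0 (le_trans (le_max_left _ _) hn) Y0 (freeze_mem hq hX hM hY0)).mono
    (le_trans (le_max_right _ _) hn) le_rfl (subset_refl _) ?_
  intro X' h1
  exact InA.freeze hq hX hM h1

theorem InA.addc {n : ℕ} {q : QC} {j : ℕ} {b : Option ℕ} {i : NIx} {B : ℕ} (hj : q.E j = none)
    {n0 : ℕ} {Y0 X : Lang} (h : InA n (addc q j b i B) n0 Y0 X) : InA n q n0 Y0 X :=
  ⟨addc_mem hj h.mem, h.lt, fun j' k' i' B' z r hE => h.leaf j' k' i' B' z r (addc_E_of hj hE),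
    h.wit⟩

theorem HB.addc {H : ℕ} {q : QC} {j : ℕ} {b : Option ℕ} {i : NIx} {B : ℕ} (hj : q.E j = none)
    (h : HB H (addc q j b i B)) : HB H q :=
  fun j' k' i' B' hE => h j' k' i' B' (addc_E_of hj hE)

theorem goodA_hid {n : ℕ} {q : QC} (hg : GoodA n q) {j k : ℕ} {i : NIx} {B : ℕ} (hk : n ≤ k)
    (hj : q.E j = none) : GoodA n (addc q j (some k) i B) := by
  intro H hH hHB p' p l a hl
  obtain ⟨b, n1, h⟩ := hg H hH (hHB.addc hj) p' p l a hl
  refine ⟨b, max n1 1, fun n0 hn Y0 hY0 => ?_⟩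
  refine (h n0 (le_trans (le_max_left _ _) hn) Y0 (addc_mem hj hY0)).mono
    (le_trans (le_max_right _ _) hn) le_rfl ?_ ?_
  · rintro v ⟨h1, h2, h3, h4, h5, h6⟩
    refine ⟨h1, h2, h3, ?_, ?_, h6⟩
    · rintro ⟨j', i', B', x, hE, hv⟩
      by_cases hjj : j' = j
      · subst hjj
        rw [addc_E_self] at hE
        simp at hE
      · rw [addc_E_ne hjj] at hE
        exact h4 ⟨j', i', B', x, hE, hv⟩
    · rintro k' hk' ⟨j', i', B', z, r, hE, hv, hl⟩
      by_cases hjj : j' = j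
      · subst hjj
        rw [addc_E_self] at hE
        simp only [Option.some.injEq, Prod.mk.injEq] at hE
        omega
      · rw [addc_E_ne hjj] at hE
        exact h5 k' hk' ⟨j', i', B', z, r, hE, hv, hl⟩
  · intro X' h1
    exact InA.addc hj h1

/-- no codes -/
theorem goodA_init (n : ℕ) {q : QC} (hE : ∀ j, q.E j = none) : GoodA n q := by
  classical
  intro H hH hHB p' p l a hl
  have hp : ∀ v, ¬ isP q v := by
    rintro v ⟨j, i, B, x, h, _⟩
    rw [hE] at h
    simp at h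
  have hh : ∀ k v, ¬ isHn q k v := by
    rintro k v ⟨j, i, B, z, r, h, _⟩
    rw [hE] at h
    simp at h
  obtain ⟨b, hb⟩ := sEval_isC p l
  -- bound for the questions
  obtain ⟨c, hc⟩ := poly_le (Polynomial.X ^ a + p'.2.comp (Polynomial.X ^ a))
  obtain ⟨e, he⟩ := poly_le (Polynomial.X ^ ((c + 1) * b) + Polynomial.X ^ c + 1)
  refine ⟨e, max 2 q.N, fun n0 hn Y0 hY0 => ?_⟩
  have hn2 : 2 ≤ n0 := le_trans (le_max_left _ _) hn
  have hnN : q.N ≤ n0 := le_trans (le_max_right _ _) hn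
  have hc' := hc n0 hn2
  have he' := he n0 hn2
  simp only [Polynomial.eval_add, Polynomial.eval_pow, Polynomial.eval_comp,
    Polynomial.eval_X, Polynomial.eval_one] at hc' he'
  set M : ℕ := 2 ^ (n0 ^ c + 1) with hM
  have h0 : 2 ≤ n0 ^ (c + 1) := by
    calc 2 ≤ n0 := hn2
      _ = n0 ^ 1 := by ring
      _ ≤ n0 ^ (c + 1) := Nat.pow_le_pow_right (by omega) (by omega)
  have hrk : ∀ u : Str, u.length ≤ n0 ^ c → rnk u < M := by
    intro u hu
    refine lt_of_lt_of_le (rnk_lt u) ?_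
    rw [hM]
    exact Nat.pow_le_pow_right (by norm_num) (by omega)
  let φ : Str → (Str ⊕ List ℕ) ⊕ Bool := fun v =>
    if v.length < n0 then Sum.inr (Y0 v) else if isTab v then Sum.inr (q.τ v)
    else if isWlt n v then Sum.inr true else Sum.inl (Sum.inl v)
  have hφ : ∀ X ∈ {X | InA n q n0 Y0 X}, ∀ x : List ℕ → Bool,
      (fun v => Sum.elim (Sum.elim X x) id (φ v)) = X := by
    intro X h1 x
    have h1' : InA n q n0 Y0 X := h1
    funext v
    simp only [φ]
    split_ifs with h3 h4 h5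
    · rw [h1'.lt v h3]; rfl
    · rw [h1'.mem.tab v (by omega) h4]; rfl
    · rw [h1'.wit v (by omega) h5]; rfl
    · rfl
  have hbe : n0 ^ ((c + 1) * b) ≤ n0 ^ e := by omega
  have hcirc : ∀ z : Str, z.length ≤ n0 ^ c → IsC (SV (par n) (SA n q n0 e) 0) (n0 ^ e) (n0 ^ e)
      (gg (par n)) (fun Y => sEval p l (fun v => Sum.elim Y id (φ v)) z) := by
    intro z hz
    have h1 := hb (n0 ^ (c + 1)) h0 z
      (hz.trans (Nat.pow_le_pow_right (by omega) (by omega)))
    rw [← pow_mul, hl] at h1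
    refine (h1.rename (S' := SV (par n) (SA n q n0 e) 0) φ ?_).mono (subset_refl _) hbe hbe
    intro v hv v' hvv'
    simp only [φ] at hvv'
    split_ifs at hvv' with h3 h4 h5
    simp only [Sum.inl.injEq] at hvv'
    subst hvv'
    refine ⟨fun w hw => ?_, fun p hp => by simp at hp⟩
    simp only [Sum.inl.injEq] at hw
    subst hw
    exact ⟨by omega, le_trans hv hbe, h4, hp _, fun k _ => hh k _, h5⟩
  refine ⟨0, Nat.zero_le _, fun _ _ _ => false, fun _ _ _ _ _ => rfl, M, ?_,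
    fun ν => if h : ∃ z : Str, z.length ≤ n0 ^ c ∧ rnk z = ν.1 then
      fun Y => sEval p l (fun v => Sum.elim Y id (φ v)) h.choose else fun _ => false, ?_,
    fun z => if (par n).d = true then vr ⟨rnk z.1, hrk z.1 (z.2.trans (by omega))⟩ else
      (accTree p'.1 (inp z.1) (p'.2.eval z.1.length)).subst (enS M), ?_, ?_⟩
  · rw [hM]
    exact Nat.pow_le_pow_right (by norm_num) (by omega)
  · intro ν
    beta_reduce
    split_ifs with h
    · exact hcirc _ h.choose_spec.1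
    · exact IsC.const _ _ _ _ _
  · rintro ⟨z, hz⟩
    unfold TOK
    beta_reduce
    by_cases hd : (par n).d = true
    · rw [if_pos hd, if_pos hd]
      exact ⟨_, rfl⟩
    · rw [if_neg hd, if_neg hd]
      have h1 := DT.depth_subst (enS M) Set.univ 1 (fun u _ => enS_depth M u)
        (accTree p'.1 (inp z) (p'.2.eval z.length)) (qin_univ _)
      have h2 := accTree_depth p'.1 (inp z) (p'.2.eval z.length)
      have h3 := poly_mono p'.2 hz
      refine h1.trans ?_
      omega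
  · intro X hX x _
    rintro ⟨z, hz⟩
    have key : ∀ (u : Str) (hu : u.length ≤ n0 ^ c),
        (if h : ∃ z : Str, z.length ≤ n0 ^ c ∧ rnk z = rnk u then
          (fun Y => sEval p l (fun v => Sum.elim Y id (φ v)) h.choose :
            (Str ⊕ List ℕ → Bool) → Bool)
          else fun _ => false) (Sum.elim X x) = sEval p l X u := by
      intro u hu
      have h : ∃ z : Str, z.length ≤ n0 ^ c ∧ rnk z = rnk u := ⟨u, hu, rfl⟩
      rw [dif_pos h]
      rw [hφ X hX x, rnk_inj _ _ h.choose_spec.2]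
    unfold mach
    beta_reduce
    by_cases hd : (par n).d = true
    · rw [if_pos hd, if_pos hd, vr_eval]
      exact key z (hz.trans (by omega))
    · rw [if_neg hd, if_neg hd, DT.eval_subst]
      have h3 := poly_mono p'.2 hz
      have hq : (accTree p'.1 (inp z) (p'.2.eval z.length)).QIn {v : Str | v.length ≤ n0 ^ c} :=
        (accTree_qin _ _ _ _ (inp_bdd z)).mono (by
          intro v hv
          have hv' : v.length ≤ z.length + p'.2.eval z.length := hv
          show v.length ≤ n0 ^ c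
          omega)
      rw [DT.eval_congr (y := sEval p l X) _ hq, accTree_eval]
      · rfl
      · intro u hu
        rw [enS_eval (hrk u hu)]
        exact key u hu

end Pool.Agent.Lib.Pa76659L
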