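import Pool.Agent.Lib.Pa76659L.Rep

/-!
Adding a column or a code of smaller type for a low set: representations of the machines.
-/

set_option maxHeartbeats 4000000

namespace Pool.Agent.Lib.Pa76659L

open Pool.Agent.Lib.Pa76659 Pool.Agent.Lib.Pa76659.Hier Pool.Agent.Lib.Pa76659O
open Pool.Agent.Lib.Pa76659P (AgreeBelow qin_univ)

/-- strings which may still be asked -/
def SPL (n : ℕ) (q : QC) (j : ℕ) (b : Option ℕ) (B n0 L c : ℕ) : Set Str :=
  {v | n0 ≤ v.length ∧ v.length ≤ n0 ^ c ∧ FreeA n q v ∧ (isC j b B v → v.length ≤ L)}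

theorem SPL_mono {n : ℕ} {q : QC} {j : ℕ} {b : Option ℕ} {B n0 L L' c c' : ℕ} (hn : 1 ≤ n0)
    (hL : L ≤ L') (hc : c ≤ c') : SPL n q j b B n0 L c ⊆ SPL n q j b B n0 L' c' :=
  fun _ ⟨h1, h2, h3, h5⟩ =>
    ⟨h1, h2.trans (Nat.pow_le_pow_right hn hc), h3, fun h => (h5 h).trans hL⟩

/-- the literals of `i` can be replaced by literals of `i'` on the members -/
def LitTo (n : ℕ) (q : QC) (i i' : NIx) : Prop := ∀ (n0 : ℕ) (Y0 : Lang),
  ∃ θ : Str → Str ⊕ Bool, (∀ L u u', LitOK i L u → θ u = Sum.inl u' →
    LitOK i' L u' ∧ u'.length ≤ u.length) ∧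
  ∀ X, InA n q n0 Y0 X → ∀ u, Sum.elim (join X (nEval i' X)) id (θ u) = join X (nEval i X) u

theorem litTo_self (n : ℕ) (q : QC) (i : NIx) : LitTo n q i i := by
  intro n0 Y0
  refine ⟨Sum.inl, ?_, fun X _ u => rfl⟩
  intro L u u' h hu
  simp only [Sum.inl.injEq] at hu
  subst hu
  exact ⟨h, le_rfl⟩

/-- the literals of the witness of smaller type -/
theorem litTo_wit {n m : ℕ} (hm : m < n) (q : QC) : LitTo n q (iW m) i0 := by
  intro n0 Y0
  refine ⟨fun u => match u with
    | [] => Sum.inr false
    | false :: v => Sum.inl (false :: v)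
    | true :: x => Sum.inr (if m + 3 + 2 * x.length < n0 then nEval (iW m) Y0 x else false),
    ?_, ?_⟩
  · intro L u u' h hu
    rcases u with _ | ⟨_ | _, u⟩
    · simp at hu
    · simp only [Sum.inl.injEq] at hu
      subst hu
      exact ⟨litOK_false h, le_rfl⟩
    · simp at hu
  · intro X hX u
    rcases u with _ | ⟨_ | _, u⟩
    · rfl
    · rfl
    · simp only [Sum.elim_inr, id_eq]
      show _ = nEval (iW m) X u
      rw [nEval_iW, nEval_iW, Bool.eq_iff_iff]
      split_ifs with h3
      · rw [EE_true, EE_true]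
        have key : ∀ y : Str, y.length = u.length → regW m Y0 (u ++ y) = regW m X (u ++ y) := by
          intro y hy
          unfold regW
          apply (hX.lt _ _).symm
          simp only [List.length_append, preW_length]
          omega
        constructor
        · rintro ⟨y, hy, hy2⟩; exact ⟨y, hy, by rw [← key y hy]; exact hy2⟩
        · rintro ⟨y, hy, hy2⟩; exact ⟨y, hy, by rw [key y hy]; exact hy2⟩
      · rw [EE_true]
        constructor
        · intro h; simp at h
        · rintro ⟨y, hy, hy2⟩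
          unfold regW at hy2
          rw [hX.wit _ (by simp only [List.length_append, preW_length]; omega)
            ⟨m, hm, u ++ y, rfl⟩] at hy2
          simp at hy2

theorem step_rep {n : ℕ} {q : QC} (hq : WF q) (hg : GoodA n q) {K : ℕ} (hK : gg (par n) = K + 1)
    {j : ℕ} {b : Option ℕ} (hb : ∀ k, b = some k → k < n) {i i' : NIx} {B : ℕ}
    (hB : GoodB b i B) (hj : q.E j = none)
    {p' p : PIx} {l : List NIx} (hl : l.length = gg (par n)) (hlow : LOWm n q i' p' p l)
    (hth : LitTo n q i i') {H : ℕ} (hH : (par n).h ≤ H) (hHB : HB H q) (c : ℕ) :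
    ∃ c' n1 : ℕ, ∀ n0 : ℕ, n1 ≤ n0 → ∀ L L' : ℕ, (∀ u : ℕ, u ^ 2 ≤ L → u ≤ L') → L' ≤ n0 ^ c →
      n0 ≤ L' + 1 → ∀ Y0 : Lang, Mem q Y0 → ∀ {ι : Type} (f : ι → Lang → Bool),
      RepF (par n) (n0 / 2 ^ H) n0 c (SPL n q j b B n0 L c)
        {X | InA n (addc q j b i B) n0 Y0 X} f →
      RepF (par n) (n0 / 2 ^ H) n0 c' (SPL n q j b B n0 L' c')
        {X | InA n (addc q j b i B) n0 Y0 X} f := by
  classical
  set P := par n with hP
  obtain ⟨c1, hc1⟩ := poly_le (Polynomial.X ^ c * (Polynomial.X ^ c + 2) + Polynomial.X ^ c + 1)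
  obtain ⟨e, he⟩ := poly_le (Polynomial.X ^ c1 + Polynomial.X ^ c1 + 1 +
    Polynomial.X ^ c1 * (3 * Polynomial.X ^ c1 + 3) + 2)
  obtain ⟨b20, n2, h20⟩ := hg H hH hHB p' p l e hl
  set b2 : ℕ := max b20 c1 with hb2
  obtain ⟨c', hc'⟩ := poly_le (Polynomial.X ^ c1 + Polynomial.X ^ b2 + 3 +
    Polynomial.X ^ b2 * Polynomial.X ^ c1)
  refine ⟨c', max (max n2 2) q.N, fun n0 hn L L' hLL hL' hnL Y0 hY0 ι f hf => ?_⟩
  have hn2 : 2 ≤ n0 := le_trans (le_trans (le_max_right _ _) (le_max_left _ _)) hn
  have hnn2 : n2 ≤ n0 := le_trans (le_trans (le_max_left _ _) (le_max_left _ _)) hn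
  have hnN : q.N ≤ n0 := le_trans (le_max_right _ _) hn
  have hLN : q.N ≤ L' + 1 := hnN.trans hnL
  have hc1' := hc1 n0 hn2
  have he' := he n0 hn2
  have hc'' := hc' n0 hn2
  simp only [Polynomial.eval_add, Polynomial.eval_mul, Polynomial.eval_pow,
    Polynomial.eval_X, Polynomial.eval_ofNat, Polynomial.eval_one] at hc1' he' hc''
  have hcc1 : n0 ^ c + 1 ≤ n0 ^ c1 := by omega
  have hcc' : n0 ^ c1 ≤ n0 ^ c' := by omega
  have hb2c' : n0 ^ b2 ≤ n0 ^ c' := by omega
  have hnc : 1 ≤ n0 ^ c1 := Nat.one_le_pow _ _ (by omega)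
  have hnb : 1 ≤ n0 ^ b2 := Nat.one_le_pow _ _ (by omega)
  obtain ⟨m, hm, cont, hcont, M, hM, Q, hQ, T, hT, hmain⟩ := hf
  have hcb : n0 ^ c1 ≤ n0 ^ b2 := Nat.pow_le_pow_right (by omega) (le_max_right _ _)
  have hlh : L' ≤ n0 ^ b2 := by omega
  obtain ⟨m2, hm2, cont2, hcont2, M2, hM2, Q2, hQ2, T2, hT2, hmain2⟩ :=
    (h20 n0 hnn2 Y0 hY0).mono (by omega) (show b20 ≤ b2 from le_max_left _ _)
      (SA_mono (by omega) (le_max_left _ _)) (subset_refl _)
  obtain ⟨θ, hθ1, hθ2⟩ := hth n0 Y0
  set g : ℕ := n0 / 2 ^ H with hgdef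
  -- the strings of the gates
  let sg : ℕ → Str := fun ν => false :: false :: bs (n0 ^ e - 2) ν
  have hsg : ∀ ν, (sg ν).length = n0 ^ e := by
    intro ν
    simp only [sg, List.length_cons, bs_length]
    omega
  have hMe : M ≤ 2 ^ (n0 ^ e - 2) :=
    hM.trans (Nat.pow_le_pow_right (by norm_num) (by omega))
  have hsgi : ∀ ν ν' : ℕ, ν < M → ν' < M → ∀ r r' : Str, sg ν ++ r = sg ν' ++ r' → ν = ν' := by
    intro ν ν' hν hν' r r' h
    have h3 := (List.append_inj h (by rw [hsg, hsg])).1
    simp only [sg, List.cons.injEq, true_and] at h3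
    exact bs_inj (by omega) (by omega) h3
  -- literals
  let cx : (Str ⊕ List ℕ) ⊕ Str → Option Str := Sum.elim (fun _ => none) some
  let S1 : Set ((Str ⊕ List ℕ) ⊕ Str) :=
    {u | (∀ w, u = Sum.inl w → w ∈ SV P (SPL n q j b B n0 L' c1) m) ∧
    ∀ s, u = Sum.inr s → s.length ≤ n0 ^ c1 ∧ LitOK i' L' s}
  let toU : Str ⊕ Str → DT ((Str ⊕ List ℕ) ⊕ Str) Bool := fun w => match w with
    | Sum.inl _ => DT.leaf false
    | Sum.inr u => match θ u with
      | Sum.inl u' => vr (Sum.inr u')
      | Sum.inr c => DT.leaf c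
  have htoU : ∀ w, (toU w).depth ≤ 1 := by
    rintro (v | u)
    · simp [toU, DT.depth]
    · simp only [toU]
      cases θ u with
      | inl u' => exact (vr_depth _).le
      | inr c => simp [DT.depth]
  let φ : Str ⊕ List ℕ → DT ((Str ⊕ List ℕ) ⊕ Str) Bool := fun u => match u with
    | Sum.inl v => if v.length ≤ L' ∨ ¬ isC j b B v then vr (Sum.inl (Sum.inl v)) else
        (colT j b B v).subst toU
    | Sum.inr p => vr (Sum.inl (Sum.inr p))
  have hφd : ∀ u ∈ SV P (SPL n q j b B n0 L c) m, (φ u).depth ≤ n0 ^ c + 2 := by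
    rintro (v | p) hu
    · have hv := hu.1 v rfl
      simp only [φ]
      split_ifs with h3
      · rw [vr_depth]; omega
      · have h4 := DT.depth_subst toU Set.univ 1 (fun w _ => htoU w) (colT j b B v) (qin_univ _)
        have h5 := colT_depth j b B v
        have h6 := hv.2.1
        omega
    · simp only [φ]
      rw [vr_depth]; omega
  have hφq : ∀ u ∈ SV P (SPL n q j b B n0 L c) m, (φ u).QIn S1 := by
    rintro (v | p) hu
    · have hv := hu.1 v rfl
      simp only [φ]
      split_ifs with h3
      · apply vr_qin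
        refine ⟨fun w hw => ?_, fun s hs => by simp at hs⟩
        simp only [Sum.inl.injEq] at hw
        subst hw
        refine ⟨fun w hw => ?_, fun p hp => by simp at hp⟩
        simp only [Sum.inl.injEq] at hw
        subst hw
        refine ⟨hv.1, by have := hv.2.1; omega, hv.2.2.1, fun h5 => ?_⟩
        rcases h3 with h | h
        · exact h
        · exact absurd h5 h
      · push Not at h3
        have h4 := colT_lit hB hLL h3.2 (hv.2.2.2 h3.2) (m := n0 ^ c1) (by
          have := hv.2.1; omega)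
        refine DT.QIn.subst ?_ h4
        rintro w ⟨u, rfl, h5, h6⟩
        simp only [toU]
        cases hθ : θ u with
        | inl u' =>
            obtain ⟨h7, h8⟩ := hθ1 L' u u' h5 hθ
            apply vr_qin
            refine ⟨fun w hw => by simp at hw, fun s hs => ?_⟩
            simp only [Sum.inr.injEq] at hs
            subst hs
            exact ⟨by omega, h7⟩
        | inr c => trivial
    · simp only [φ]
      apply vr_qin
      refine ⟨fun w hw => ?_, fun s hs => by simp at hs⟩
      simp only [Sum.inl.injEq] at hw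
      subst hw
      exact ⟨fun v hv => by simp at hv, fun p' hp' => hu.2 p' hp'⟩
  have hf1 : ∀ ν, IsC S1 (n0 ^ c1) (n0 ^ c1) (K + 1)
      (fun Y => Q ν (fun u => (φ u).eval Y)) := by
    intro ν
    have h3 := hQ ν
    rw [hK] at h3
    have h4 := h3.subst (S' := S1) (d := n0 ^ c + 2) φ hφd hφq
    exact h4.mono (subset_refl _) (by omega) (by omega)
  have hex : ∀ ν : Fin M, ∃ Tab : Str → DT ((Str ⊕ List ℕ) ⊕ Str) Bool,
      (∀ v, (Tab v).depth ≤ n0 ^ c1) ∧ (∀ v, (Tab v).QIn {u | u ∈ S1 ∧ cx u = none}) ∧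
      ∀ (Y : (Str ⊕ List ℕ) ⊕ Str → Bool) (Z : Lang),
        (∀ r : Str, r.length + (sg ν).length = 2 ^ (K + 1) * (sg ν).length →
          Z (false :: (sg ν ++ r)) = (Tab (sg ν ++ r)).eval Y) →
        (∀ u ∈ S1, ∀ x, cx u = some x → Z (true :: x) = Y u) →
        J (K + 1) Z (sg ν) = Q ν (fun u => (φ u).eval Y) := by
    intro ν
    exact univG cx S1 (n0 ^ c1) (n0 ^ c1) (n0 ^ c1) (by
      rintro (v | u) hv x hx
      · simp [cx] at hx
      · simp only [cx, Sum.elim_inr, Option.some.injEq] at hx
        rw [← hx]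
        exact (hv.2 u rfl).1) K _ (hf1 ν) (sg ν) (by rw [hsg]; omega)
  choose Tab hTab1 hTab2 hTab3 using hex
  let ex : Str → Prop := fun v => ∃ t : Fin M × Str, v = sg t.1 ++ t.2 ∧
    t.2.length + (sg t.1).length = 2 ^ (K + 1) * (sg t.1).length
  let G : Lang → (List ℕ → Bool) → Lang := fun X x v =>
    if h : ex v then (Tab h.choose.1 v).eval (Sum.elim (Sum.elim X x) (fun _ => false)) else false
  let X1 : Lang → (List ℕ → Bool) → Lang := fun X x =>
    World q n g L' (n0 ^ b2) X (G X x) (fun p => x (shift (rtt P m) p))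
  set R1 : ℕ := 2 ^ (n0 ^ b2 + 1) with hR1
  let ct : ℕ → Lang → (List ℕ → Bool) → Bool := fun r X x =>
    if r < m then cont r X x else if r < m + R1 then contH q n L' (n0 ^ b2) (X1 X x) (r - m)
    else cont2 (r - (m + R1)) (X1 X x) (fun p => x (shift (rtt P (m + R1)) p))
  have hggl : g * 2 ^ H ≤ L' + 1 := (Nat.div_mul_le_self n0 (2 ^ H)).trans hnL
  -- the tables do not depend on late trees
  have hGag : ∀ (X : Lang) (x x' : List ℕ → Bool), AgreeBelow (rtt P m) x x' →
      G X x = G X x' := by
    intro X x x' hxx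
    funext v
    simp only [G]
    split_ifs with h
    · apply DT.eval_congr _ (hTab2 _ v)
      rintro ((w | p) | s) ⟨h3, h4⟩
      · rfl
      · obtain ⟨r, h5, h6⟩ := (h3.1 _ rfl).2 p rfl
        exact hxx p r h5 h6
      · simp [cx] at h4
    · rfl
  have hctag : ∀ r X x x', AgreeBelow (rtt P r) x x' → ct r X x = ct r X x' := by
    intro r X x x' hxx
    simp only [ct]
    by_cases h3 : r < m
    · rw [if_pos h3, if_pos h3]
      exact hcont r X x x' hxx
    rw [if_neg h3, if_neg h3]
    have hG : G X x = G X x' := hGag X x x' (agree_mono hxx (rtt_mono P (by omega)))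
    by_cases h4 : r < m + R1
    · rw [if_pos h4, if_pos h4]
      apply contH_congr hq (fun _ _ => rfl)
      · intro v _ _
        rw [hG]
      · apply agree_shift
        rw [← rtt_add, Nat.add_sub_cancel' (by omega)]
        exact hxx
    · rw [if_neg h4, if_neg h4]
      have hX1 : X1 X x = X1 X x' := by
        funext v
        refine World_congr hq v.length (fun _ _ => rfl) ?_ ?_ v le_rfl
        · intro u _ _ _
          rw [hG]
        · intro u _ _ h5 hh
          cases hpu : pos q n g u with
          | inr c => rfl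
          | inl pu =>
            obtain ⟨r', h6, h7⟩ := pos_last_lt hh hpu
            rw [← hP] at h7
            simp only [Sum.elim_inl]
            apply hxx _ (r' + rtt P m)
            · rw [shift_getLast, h6]; rfl
            · have h8 : rtt P (2 ^ (u.length + 1)) ≤ rtt P R1 := rtt_mono P (by
                rw [hR1]; exact Nat.pow_le_pow_right (by norm_num) (by omega))
              have h9 := rtt_add P m R1
              have h10 : rtt P (m + R1) ≤ rtt P r := rtt_mono P (by omega)
              omega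
      rw [hX1]
      apply hcont2
      apply agree_shift
      rw [← rtt_add, Nat.add_sub_cancel' (by omega)]
      exact hxx
  -- substitution
  let toV : (Str ⊕ List ℕ) ⊕ Str → DT (Str ⊕ List ℕ) Bool := Sum.elim vr (fun _ => DT.leaf false)
  let sub : Str ⊕ List ℕ → DT (Str ⊕ List ℕ) Bool := fun u => match u with
    | Sum.inl v => if v.length ≤ L' then vr (Sum.inl v) else
        if isHge q n v then
          (match pos q n g v with
            | Sum.inl p => vr (Sum.inr (shift (rtt P m) p))
            | Sum.inr c => DT.leaf c) else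
          if h : ex v then (Tab h.choose.1 v).subst toV else DT.leaf false
    | Sum.inr p => vr (Sum.inr (shift (rtt P (m + R1)) p))
  have hTd : ∀ ν v, ((Tab ν v).subst toV).depth ≤ n0 ^ c1 := by
    intro ν v
    have h4 := DT.depth_subst toV _ 1 (by
      rintro (v | u) _
      · exact (vr_depth v).le
      · simp [toV, DT.depth]) (Tab ν v) (hTab2 ν v)
    rw [mul_one] at h4
    exact h4.trans (hTab1 ν v)
  have hsubd : ∀ u, (sub u).depth ≤ n0 ^ c1 := by
    rintro (v | p)
    · simp only [sub]
      split_ifs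
      · rw [vr_depth]; exact hnc
      · cases pos q n g v with
        | inl p => simp only; rw [vr_depth]; exact hnc
        | inr c => simp [DT.depth]
      · exact hTd _ _
      · simp [DT.depth]
    · simp only [sub]
      rw [vr_depth]; exact hnc
  set m' : ℕ := m + (R1 + m2) with hm'
  have hSS : SV P (SPL n q j b B n0 L' c1) m ⊆ SV P (SPL n q j b B n0 L' c') m' := by
    apply SV_mono
    · rintro v ⟨h3, h4, h5⟩
      exact ⟨h3, h4.trans hcc', h5⟩
    · omega
  have hsubq : ∀ u ∈ SV P (SA n q n0 b2) m2, (sub u).QIn (SV P (SPL n q j b B n0 L' c') m') := by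
    rintro (v | p) hu
    · have hv := hu.1 v rfl
      simp only [sub]
      split_ifs with h3 h4 h5
      · apply vr_qin
        refine ⟨fun w hw => ?_, fun p hp => by simp at hp⟩
        simp only [Sum.inl.injEq] at hw
        subst hw
        exact ⟨hv.1, hv.2.1.trans hb2c', hv.2.2, fun _ => h3⟩
      · cases hpv : pos q n g v with
        | inr c => trivial
        | inl pv =>
          simp only
          apply vr_qin
          refine ⟨fun w hw => by simp at hw, fun p hp => ?_⟩
          simp only [Sum.inr.injEq] at hp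
          subst hp
          obtain ⟨r', h6, h7⟩ := pos_last_lt h4 hpv
          rw [← hP] at h7
          refine ⟨r' + rtt P m, ?_, ?_⟩
          · rw [shift_getLast, h6]; rfl
          · have h8 : rtt P (2 ^ (v.length + 1)) ≤ rtt P R1 := rtt_mono P (by
              rw [hR1]
              have := hv.2.1
              exact Nat.pow_le_pow_right (by norm_num) (by omega))
            have h9 := rtt_add P m R1
            have h10 : rtt P (m + R1) ≤ rtt P m' := rtt_mono P (by omega)
            omega
      · refine DT.QIn.subst ?_ (hTab2 _ v)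
        rintro (u | u) ⟨hu1, hu2⟩
        · exact vr_qin (hSS (hu1.1 u rfl))
        · trivial
      · trivial
    · simp only [sub]
      apply vr_qin
      refine ⟨fun w hw => by simp at hw, fun p' hp' => ?_⟩
      simp only [Sum.inr.injEq] at hp'
      subst hp'
      obtain ⟨r, h3, h4⟩ := hu.2 p rfl
      refine ⟨r + rtt P (m + R1), ?_, ?_⟩
      · rw [shift_getLast, h3]; rfl
      · have h9 := rtt_add P (m + R1) m2
        have h10 : m + R1 + m2 = m' := by omega
        rw [h10] at h9
        omega
  have hsge : ∀ ν : Fin M, (sg ν).length ≤ n0 ^ e := fun ν => (hsg ν).le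
  refine ⟨m', ?_, ct, hctag, M2, hM2.trans (Nat.pow_le_pow_right (by norm_num) hb2c'),
    fun μ Y => Q2 μ (fun u => (sub u).eval Y), ?_,
    fun i => (T i).subst (fun ν : Fin M => T2 ⟨sg ν.1, hsge ν⟩), ?_, ?_⟩
  · have h3 : 2 ^ (n0 ^ c) ≤ 2 ^ (n0 ^ c1 + n0 ^ b2 + 1) :=
      Nat.pow_le_pow_right (by norm_num) (by omega)
    have h4 : R1 ≤ 2 ^ (n0 ^ c1 + n0 ^ b2 + 1) := Nat.pow_le_pow_right (by norm_num) (by omega)
    have h5 : 2 ^ (n0 ^ b2) ≤ 2 ^ (n0 ^ c1 + n0 ^ b2 + 1) :=
      Nat.pow_le_pow_right (by norm_num) (by omega)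
    have h6 : 2 ^ (n0 ^ c1 + n0 ^ b2 + 1 + 2) ≤ 2 ^ (n0 ^ c') :=
      Nat.pow_le_pow_right (by norm_num) (by omega)
    rw [pow_add] at h6
    omega
  · intro μ
    refine (((hQ2 μ).subst (d := n0 ^ c1) sub (fun u _ => hsubd u) hsubq)).mono (subset_refl _)
      hb2c' (by omega)
  · intro i
    have hTi := hT i
    unfold TOK at hTi ⊢
    by_cases hd : P.d = true
    · rw [if_pos hd] at hTi ⊢
      obtain ⟨ν, hν⟩ := hTi
      have h3 := hT2 ⟨sg ν.1, hsge ν⟩
      unfold TOK at h3
      rw [if_pos hd] at h3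
      obtain ⟨μ, hμ⟩ := h3
      refine ⟨μ, ?_⟩
      show (T i).subst (fun ν : Fin M => T2 ⟨sg ν.1, hsge ν⟩) = vr μ
      rw [hν]
      unfold vr
      simp only [DT.subst, hμ, vr, DT.bind]
      simp
    · rw [if_neg hd] at hTi ⊢
      have h3 := DT.depth_subst (fun ν => T2 ⟨sg ν.1, hsge ν⟩) Set.univ (n0 ^ b2) (by
        intro ν _
        have h4 := hT2 ⟨sg ν.1, hsge ν⟩
        unfold TOK at h4
        rw [if_neg hd] at h4
        exact h4) (T i) (qin_univ _)
      have h4 : (T i).depth * n0 ^ b2 ≤ n0 ^ c1 * n0 ^ b2 := Nat.mul_le_mul_right _ (by omega)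
      have h5 : n0 ^ c1 * n0 ^ b2 = n0 ^ b2 * n0 ^ c1 := Nat.mul_comm _ _
      refine h3.trans ?_
      omega
  · intro X hX x hx i0
    have hXA : InA n (addc q j b i B) n0 Y0 X := hX
    have hXq : InA n q n0 Y0 X := hXA.addc hj
    have hwle : ∀ v : Str, v.length ≤ L' → X1 X x v = X v :=
      fun v hv => World_le hq hXq.mem hlh hv
    -- the strings of the gates
    have hff : ∀ (ν : ℕ) (r : Str), ¬ isTab (sg ν ++ r) ∧ ¬ isP q (sg ν ++ r) ∧
        ¬ isH q (sg ν ++ r) ∧ ¬ isWlt n (sg ν ++ r) := by
      intro ν r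
      have h3 := ff_free q (bs (n0 ^ e - 2) ν ++ r)
      exact ⟨h3.1, h3.2.1, h3.2.2.1, fun h => h3.2.2.2 (isWlt_isW h)⟩
    have hXmem : Mem q (X1 X x) := by
      apply World_mem hq hXq.mem hlh hLN hggl hHB
      intro j' k' i'' B' z' hE hk' h3 h4
      rw [TV_shift]
      have h5 : rnk (code j' B' (nm (par k') z')) < R1 := by
        refine lt_of_lt_of_le (rnk_lt _) ?_
        rw [hR1]
        apply Nat.pow_le_pow_right (by norm_num)
        have h6 : (code j' B' (nm (par k') z')).length ≤ clen (par k') j' B' z' := by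
          unfold clen
          have : (code j' B' (nm (par k') z')).length * 1 ≤
              (code j' B' (nm (par k') z')).length * 2 ^ (par k').h :=
            Nat.mul_le_mul_left _ Nat.one_le_two_pow
          omega
        omega
      have h6 := hx (m + rnk (code j' B' (nm (par k') z'))) (by omega)
      simp only [ct] at h6
      rw [if_neg (by omega), if_pos (by omega), Nat.add_sub_cancel_left] at h6
      rw [contH_code hE hk' h3 h4] at h6
      exact h6
    have hXVA : InA n q n0 Y0 (X1 X x) := World_inA hq hlh hLN hXq hnL hXmem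
    have hrep2 := hmain2 (X1 X x) hXVA (fun p => x (shift (rtt P (m + R1)) p)) (by
      intro r hr
      rw [TV_shift]
      have h6 := hx (m + R1 + r) (by omega)
      simp only [ct] at h6
      rw [if_neg (by omega), if_neg (by omega), Nat.add_sub_cancel_left] at h6
      exact h6)
    -- the gates
    have hgate : ∀ ν : Fin M, mach P p' p l (X1 X x) (sg ν.1) = Q ν (Sum.elim X x) := by
      intro ν
      have hlow' := hlow (X1 X x) hXmem (sg ν.1)
      rw [← hlow', ← hP, hK, hTab3 ν
        (Sum.elim (Sum.elim X x) (join (X1 X x) (nEval i' (X1 X x)))) (ZZ i' (X1 X x)) ?_ ?_]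
      · apply IsC.eval_congr _ (hQ ν)
        rintro (v | p) hu
        · have hv := hu.1 v rfl
          simp only [φ]
          split_ifs with h3
          · rw [vr_eval]; rfl
          · push Not at h3
            have h4 := colT_lit hB hLL h3.2 (hv.2.2.2 h3.2) (m := n0 ^ c1) (by
              have := hv.2.1; omega)
            rw [DT.eval_subst]
            rw [DT.eval_congr (y := Sum.elim X (join X (nEval i X))) _ h4]
            · have h5 : (colT j b B v).eval (Sum.elim X (join X (nEval i X))) = X v := by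
                apply colT_eval'
                · rintro rfl x' hx'
                  rw [hx']
                  apply hXA.mem.col j i B x' addc_E_self
                  show q.N ≤ _
                  rw [← hx']
                  exact hnN.trans hv.1
                · rintro k rfl z r hz hz2
                  rw [hz]
                  rw [hz] at hz2
                  apply hXA.leaf j k i B z r addc_E_self (hb k rfl) _ hz2
                  rw [← hz]
                  exact hv.1
              rw [h5]
              rfl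
            · rintro w ⟨u, rfl, h5, h6⟩
              simp only [toU, Sum.elim_inr]
              rw [← hθ2 X hXq u]
              cases hθ : θ u with
              | inl u' =>
                  obtain ⟨h7, h8⟩ := hθ1 L' u u' h5 hθ
                  simp only [Sum.elim_inl]
                  rw [vr_eval, Sum.elim_inr]
                  exact h7 _ _ hwle
              | inr c => rfl
        · simp only [φ]
          rw [vr_eval]; rfl
      · intro r hr
        show X1 X x (sg ν.1 ++ r) = _
        obtain ⟨h3, h4, h5, h5'⟩ := hff ν.1 r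
        have hlen : L' < (sg ν.1 ++ r).length := by
          rw [List.length_append, hsg]
          omega
        have h6 : X1 X x (sg ν.1 ++ r) = G X x (sg ν.1 ++ r) :=
          World_free hq hLN hlen h3 h4 h5 h5'
        rw [h6]
        have h7 : ex (sg ν.1 ++ r) := ⟨(ν, r), rfl, hr⟩
        simp only [G]
        rw [dif_pos h7]
        have h8 : h7.choose.1 = ν := by
          have h9 := h7.choose_spec.1
          exact Fin.ext (hsgi _ _ h7.choose.1.2 ν.2 _ _ h9.symm)
        rw [h8]
        apply DT.eval_congr _ (hTab2 ν _)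
        rintro (u | u) ⟨_, hc⟩
        · rfl
        · simp [cx] at hc
      · rintro (v | u) hu s hs
        · simp [cx] at hs
        · simp only [cx, Sum.elim_inr, Option.some.injEq] at hs
          subst hs
          rfl
    have hsube : ∀ u ∈ SV P (SA n q n0 b2) m2, (sub u).eval (Sum.elim X x) =
        Sum.elim (X1 X x) (fun p => x (shift (rtt P (m + R1)) p)) u := by
      rintro (v | p) hu
      · have hv := hu.1 v rfl
        have hvA : FreeA n q v := hv.2.2
        simp only [sub, Sum.elim_inl]
        split_ifs with h3 h4 h5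
        · rw [vr_eval, hwle v h3]; rfl
        · have h6 : X1 X x v = Sum.elim (fun p => x (shift (rtt P m) p)) id (pos q n g v) :=
            World_hid hq hLN (by omega) hv.2.1 h4
          rw [h6]
          cases pos q n g v with
          | inl p => simp only; rw [vr_eval]; rfl
          | inr c => rfl
        · have hnH : ¬ isH q v := by
            rintro ⟨k, hk⟩
            by_cases hkn : k < n
            · exact hvA.2.2.1 k hkn hk
            · exact h4 ⟨k, by omega, hk⟩
          rw [DT.eval_subst]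
          have h6 : X1 X x v = G X x v :=
            World_free hq hLN (by omega) hvA.1 hvA.2.1 hnH hvA.2.2.2
          rw [h6]
          simp only [G]
          rw [dif_pos h5]
          congr 1
          funext u
          rcases u with u | u
          · simp only [toV, Sum.elim_inl]
            rw [vr_eval]
          · simp [toV, DT.eval]
        · have hnH : ¬ isH q v := by
            rintro ⟨k, hk⟩
            by_cases hkn : k < n
            · exact hvA.2.2.1 k hkn hk
            · exact h4 ⟨k, by omega, hk⟩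
          have h6 : X1 X x v = G X x v :=
            World_free hq hLN (by omega) hvA.1 hvA.2.1 hnH hvA.2.2.2
          rw [h6]
          simp only [G]
          rw [dif_neg h5]
          rfl
      · simp only [sub, Sum.elim_inr]
        rw [vr_eval]
        rfl
    rw [DT.eval_subst]
    have hQ2e : (fun μ : Fin M2 => Q2 μ (fun u => (sub u).eval (Sum.elim X x))) =
        fun μ => Q2 μ (Sum.elim (X1 X x) (fun p => x (shift (rtt P (m + R1)) p))) := by
      funext μ
      exact IsC.eval_congr hsube (hQ2 μ)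
    have h3 : (fun ν : Fin M => (T2 ⟨sg ν.1, hsge ν⟩).eval
        (fun μ : Fin M2 => Q2 μ (fun u => (sub u).eval (Sum.elim X x)))) =
        fun ν => Q ν (Sum.elim X x) := by
      funext ν
      rw [hQ2e, hrep2 ⟨sg ν.1, hsge ν⟩]
      exact hgate ν
    rw [h3]
    apply hmain X hXA x
    intro r hr
    have h6 := hx r (by omega)
    simp only [ct] at h6
    rw [if_pos hr] at h6
    exact h6

section

variable {n : ℕ} {q : QC} (hq : WF q) (hg : GoodA n q) {K : ℕ} (hK : gg (par n) = K + 1)
    {j : ℕ} {b : Option ℕ} (hb : ∀ k, b = some k → k < n) {i i' : NIx} {B : ℕ}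
    (hB : GoodB b i B) (hj : q.E j = none)
    {p' p : PIx} {l : List NIx} (hl : l.length = gg (par n)) (hlow : LOWm n q i' p' p l)
    (hth : LitTo n q i i')

include hq hg hK hb hB hj hl hlow hth

theorem iter_rep {H : ℕ} (hH : (par n).h ≤ H) (hHB : HB H q) : ∀ (M c : ℕ), ∃ c' n1 : ℕ,
    ∀ n0 : ℕ, n1 ≤ n0 → ∀ Y0 : Lang, Mem q Y0 → ∀ {ι : Type} (f : ι → Lang → Bool),
    RepF (par n) (n0 / 2 ^ H) n0 c (SPL n q j b B n0 (n0 ^ (2 ^ M)) c)
      {X | InA n (addc q j b i B) n0 Y0 X} f →
    RepF (par n) (n0 / 2 ^ H) n0 c' (SPL n q j b B n0 (n0 - 1) c')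
      {X | InA n (addc q j b i B) n0 Y0 X} f
  | 0, c => by
      obtain ⟨c', n1, h⟩ := step_rep hq hg hK hb hB hj hl hlow hth hH hHB (c + 1)
      refine ⟨c', max n1 2, fun n0 hn Y0 hY0 ι f hf => ?_⟩
      have hn2 : 2 ≤ n0 := le_trans (le_max_right _ _) hn
      refine h n0 (le_trans (le_max_left _ _) hn) (n0 ^ (2 ^ 0)) (n0 - 1) ?_ ?_ (by omega) Y0 hY0 f
        (hf.mono (by omega) (by omega) (SPL_mono (by omega) le_rfl (by omega)) (subset_refl _))
      · intro u hu
        by_contra hcon
        have h1 : n0 ≤ u := by omega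
        have h2 : n0 ^ 2 ≤ u ^ 2 := Nat.pow_le_pow_left h1 2
        simp only [pow_zero, pow_one] at hu
        nlinarith
      · have h1 : n0 ^ 1 ≤ n0 ^ (c + 1) := Nat.pow_le_pow_right (by omega) (by omega)
        rw [pow_one] at h1
        omega
  | M + 1, c => by
      obtain ⟨b1, n1, h1⟩ := step_rep hq hg hK hb hB hj hl hlow hth hH hHB (c + 2 ^ M)
      obtain ⟨b2, n2, h2⟩ := iter_rep hH hHB M b1
      refine ⟨b2, max (max n1 n2) 2, fun n0 hn Y0 hY0 ι f hf => ?_⟩
      have hn2 : 2 ≤ n0 := le_trans (le_max_right _ _) hn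
      have h3 := h1 n0 (le_trans (le_trans (le_max_left _ _) (le_max_left _ _)) hn)
        (n0 ^ (2 ^ (M + 1))) (n0 ^ (2 ^ M)) (by
          intro u hu
          have h3 : n0 ^ (2 ^ (M + 1)) = (n0 ^ (2 ^ M)) ^ 2 := by
            rw [← pow_mul]; congr 1
          rw [h3] at hu
          exact (Nat.pow_le_pow_iff_left (by norm_num)).1 hu)
        (Nat.pow_le_pow_right (by omega) (Nat.le_add_left _ _)) (by
          have h4 : n0 ^ 1 ≤ n0 ^ (2 ^ M) := Nat.pow_le_pow_right (by omega) Nat.one_le_two_pow
          rw [pow_one] at h4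
          omega) Y0 hY0 f
        (hf.mono (by omega) (Nat.le_add_right _ _)
          (SPL_mono (by omega) le_rfl (Nat.le_add_right _ _)) (subset_refl _))
      exact h2 n0 (le_trans (le_trans (le_max_right _ _) (le_max_left _ _)) hn) Y0 hY0 f h3

theorem goodA_addc : GoodA n (addc q j b i B) := by
  intro H hH hHB' r' r l1 a hl1
  have hHB : HB H q := hHB'.addc hj
  obtain ⟨c, n1, h1⟩ := hg H hH hHB r' r l1 a hl1
  obtain ⟨c', n2, h2⟩ := iter_rep hq hg hK hb hB hj hl hlow hth hH hHB c c
  refine ⟨c', max (max n1 n2) 2, fun n0 hn Y0 hY0 => ?_⟩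
  have hn1 : n1 ≤ n0 := le_trans (le_trans (le_max_left _ _) (le_max_left _ _)) hn
  have hn2 : n2 ≤ n0 := le_trans (le_trans (le_max_right _ _) (le_max_left _ _)) hn
  have hn3 : 2 ≤ n0 := le_trans (le_max_right _ _) hn
  have hY0' : Mem q Y0 := addc_mem hj hY0
  have h3 := h1 n0 hn1 Y0 hY0'
  have h4 := h2 n0 hn2 Y0 hY0' _ (h3.mono (by omega) le_rfl
    (S' := SPL n q j b B n0 (n0 ^ (2 ^ c)) c) (VX' := {X | InA n (addc q j b i B) n0 Y0 X}) (by
      rintro v ⟨c1, c2, c3⟩
      refine ⟨c1, c2, c3, fun _ => c2.trans (Nat.pow_le_pow_right (by omega) ?_)⟩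
      exact (Nat.lt_two_pow_self).le) (by
      intro X hX
      exact InA.addc hj hX))
  refine h4.mono (by omega) le_rfl ?_ (subset_refl _)
  rintro v ⟨c1, c2, ⟨c3, c4, c5, c6⟩, c7⟩
  have hnc : ¬ isC j b B v := by
    intro h
    have := c7 h
    omega
  refine ⟨c1, c2, c3, ?_, ?_, c6⟩
  · rintro ⟨j', i', B', x, hE, hv⟩
    by_cases hjj : j' = j
    · subst hjj
      rw [addc_E_self] at hE
      simp only [Option.some.injEq, Prod.mk.injEq] at hE
      obtain ⟨rfl, rfl, rfl⟩ := hE
      exact hnc ⟨x, hv⟩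
    · rw [addc_E_ne hjj] at hE
      exact c4 ⟨j', i', B', x, hE, hv⟩
  · rintro k' hk' ⟨j', i', B', z', r, hE, hv, hl'⟩
    by_cases hjj : j' = j
    · subst hjj
      rw [addc_E_self] at hE
      simp only [Option.some.injEq, Prod.mk.injEq] at hE
      obtain ⟨rfl, rfl, rfl⟩ := hE
      exact hnc ⟨z', r, hv, hl'⟩
    · rw [addc_E_ne hjj] at hE
      exact c5 k' hk' ⟨j', i', B', z', r, hE, hv, hl'⟩

end

end Pool.Agent.Lib.Pa76659L
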