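import Pool.Agent.Lib.Pa76659L.Forest

/-!
Oracles in which the hidden codes of type at least `n` are filled by a forest.
-/

set_option maxHeartbeats 4000000

namespace Pool.Agent.Lib.Pa76659L

open Pool.Agent.Lib.Pa76659 Pool.Agent.Lib.Pa76659.Hier Pool.Agent.Lib.Pa76659O
open Pool.Agent.Lib.Pa76659P (AgreeBelow)

/-- hidden string of type at least `n` -/
def isHge (q : QC) (n : ℕ) (v : Str) : Prop := ∃ k, n ≤ k ∧ isHn q k v

/-- string in the region of a witness of type less than `n` -/
def isWlt (n : ℕ) (v : Str) : Prop := ∃ m < n, ∃ u, v = preW m ++ u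

theorem isWlt_isW {n : ℕ} {v : Str} (h : isWlt n v) : isW v := by
  obtain ⟨m, _, u, rfl⟩ := h
  exact isW_preW m u

theorem isHge_isH {q : QC} {n : ℕ} {v : Str} (h : isHge q n v) : isH q v := by
  obtain ⟨k, _, h⟩ := h
  exact ⟨k, h⟩

/-- cut-offs for the canonical filling -/
def cut (n lo hi : ℕ) : ℕ → ℕ := fun k => if k < n then lo + 1 else hi + 1

theorem le_cut {n lo hi : ℕ} (h : lo ≤ hi) (k : ℕ) : lo + 1 ≤ cut n lo hi k := by
  unfold cut; split_ifs <;> omega

open Classical in
/-- position of a hidden string of type at least `n` -/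
noncomputable def pos (q : QC) (n g : ℕ) (v : Str) : List ℕ ⊕ Bool :=
  if h : ∃ t : ℕ × ℕ × NIx × ℕ × Str × Str,
      q.E t.1 = some (some t.2.1, t.2.2.1, t.2.2.2.1) ∧
      v = code t.1 t.2.2.2.1 t.2.2.2.2.1 ++ t.2.2.2.2.2 ∧
      v.length = (code t.1 t.2.2.2.1 t.2.2.2.2.1).length * 2 ^ (par t.2.1).h ∧ n ≤ t.2.1 then
    leafQ (par n) (par h.choose.2.1) g h.choose.1 h.choose.2.2.2.1 h.choose.2.2.2.2.1
      h.choose.2.2.2.2.2
  else Sum.inr true

theorem pos_code {q : QC} {n g : ℕ} {j k : ℕ} {i : NIx} {B : ℕ} {z r : Str}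
    (hE : q.E j = some (some k, i, B))
    (hl : (code j B z ++ r).length = (code j B z).length * 2 ^ (par k).h) (hk : n ≤ k) :
    pos q n g (code j B z ++ r) = leafQ (par n) (par k) g j B z r := by
  have h1 : ∃ t : ℕ × ℕ × NIx × ℕ × Str × Str,
      q.E t.1 = some (some t.2.1, t.2.2.1, t.2.2.2.1) ∧
      code j B z ++ r = code t.1 t.2.2.2.1 t.2.2.2.2.1 ++ t.2.2.2.2.2 ∧
      (code j B z ++ r).length = (code t.1 t.2.2.2.1 t.2.2.2.2.1).length * 2 ^ (par t.2.1).h ∧
      n ≤ t.2.1 := ⟨(j, k, i, B, z, r), hE, rfl, hl, hk⟩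
  unfold pos
  rw [dif_pos h1]
  obtain ⟨h2, h3, _⟩ := h1.choose_spec
  have e1 := code_append_j h3
  rw [← e1, hE] at h2
  simp only [Option.some.injEq, Prod.mk.injEq] at h2
  rw [← e1, ← h2.2.2] at h3
  have e2 := (code_append_inj h3).2
  have h5 := append_right_cancel_len h3 (by rw [← e2])
  rw [← e1, ← h5, ← h2.2.2, ← e2, ← h2.1]

theorem leafQ_last {P P' : Par} {g j B : ℕ} {z r : Str} {p : List ℕ}
    (h : leafQ P P' g j B z r = Sum.inl p) :
    ∃ ρ a, rt P P' j B z = some (ρ, a) ∧ p.getLast? = some ρ := by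
  unfold leafQ at h
  cases hrt : rt P P' j B z with
  | none =>
      rw [hrt] at h
      simp at h
  | some w =>
      obtain ⟨ρ, a⟩ := w
      rw [hrt] at h
      simp only at h
      exact ⟨ρ, a, rfl, leafP_getLast g a P'.h _ r [ρ] ρ p (by simp) h⟩

/-- the last entry of the position is the index of the tree -/
theorem pos_last {q : QC} {n g : ℕ} {v : Str} (h : isHge q n v) {p : List ℕ}
    (hp : pos q n g v = Sum.inl p) :
    ∃ j k i B z r ρ a, n ≤ k ∧ q.E j = some (some k, i, B) ∧ v = code j B z ++ r ∧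
      v.length = (code j B z).length * 2 ^ (par k).h ∧
      rt (par n) (par k) j B z = some (ρ, a) ∧ p.getLast? = some ρ := by
  obtain ⟨k, hk, j, i, B, z, r, hE, rfl, hl⟩ := h
  rw [pos_code hE hl hk] at hp
  obtain ⟨ρ, a, h1, h2⟩ := leafQ_last hp
  exact ⟨j, k, i, B, z, r, ρ, a, hk, hE, rfl, hl, h1, h2⟩

theorem pos_last_lt {q : QC} {n g : ℕ} {v : Str} (h : isHge q n v) {p : List ℕ}
    (hp : pos q n g v = Sum.inl p) :
    ∃ r, p.getLast? = some r ∧ r < rtt (par n) (2 ^ (v.length + 1)) := by
  obtain ⟨j, k, i, B, z, r, ρ, a, _, _, hv, _, h1, h2⟩ := pos_last h hp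
  refine ⟨ρ, h2, lt_of_lt_of_le (rt_lt h1) (rtt_mono _ ?_)⟩
  apply Nat.pow_le_pow_right (by norm_num)
  rw [hv, List.length_append]
  omega

open Classical in
/-- The oracle which is `X` up to length `lo`; above that the free strings are filled by `G`, the
codes of type less than `n` canonically, and the hidden strings of type at least `n` up to length
`hi` by the forest `x`. -/
noncomputable def World (q : QC) (n g lo hi : ℕ) (X G : Lang) (x : List ℕ → Bool) : Lang :=
  Phi q (cut n lo hi) (mix (lo + 1) X (fun v => if isHge q n v then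
    Sum.elim x id (pos q n g v) else if isWlt n v then true else G v))

/-- the members which are canonical for the types less than `n` -/
structure InA (n : ℕ) (q : QC) (n0 : ℕ) (Y0 X : Lang) : Prop where
  mem : Mem q X
  lt : ∀ v : Str, v.length < n0 → X v = Y0 v
  leaf : ∀ j k i B z r, q.E j = some (some k, i, B) → k < n → n0 ≤ (code j B z ++ r).length →
    (code j B z ++ r).length = (code j B z).length * 2 ^ (par k).h →
    X (code j B z ++ r) = lf (par k) i X z (code j B z).length r
  wit : ∀ v : Str, n0 ≤ v.length → isWlt n v → X v = true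

section

variable {q : QC} {n g lo hi : ℕ} {X G : Lang} {x : List ℕ → Bool}

theorem World_le (hq : WF q) (hX : Mem q X) (hlh : lo ≤ hi) {v : Str} (hv : v.length ≤ lo) :
    World q n g lo hi X G x v = X v :=
  Phi_mix_lt hq hX (fun k => le_cut hlh k) _ v (by omega)

theorem World_free (hq : WF q) (hN : q.N ≤ lo + 1) {v : Str} (hv : lo < v.length)
    (ht : ¬ isTab v) (hp : ¬ isP q v) (hh : ¬ isH q v) (hw : ¬ isWlt n v) :
    World q n g lo hi X G x v = G v := by
  unfold World
  rw [Phi_none hq _ (by omega) ht hp (fun k h => absurd ⟨k, h⟩ hh), mix_ge (by omega),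
    if_neg (fun h => hh (isHge_isH h)), if_neg hw]

theorem World_wit (hq : WF q) (hN : q.N ≤ lo + 1) {v : Str} (hv : lo < v.length)
    (hw : isWlt n v) : World q n g lo hi X G x v = true := by
  obtain ⟨ht, hp, hh⟩ := isW_not (q := q) (isWlt_isW hw)
  unfold World
  rw [Phi_none hq _ (by omega) ht hp (fun k h => absurd ⟨k, h⟩ hh), mix_ge (by omega),
    if_neg (fun h => hh (isHge_isH h)), if_pos hw]

theorem World_hid (hq : WF q) (hN : q.N ≤ lo + 1) {v : Str} (hv : lo < v.length)
    (hv' : v.length ≤ hi) (hh : isHge q n v) :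
    World q n g lo hi X G x v = Sum.elim x id (pos q n g v) := by
  obtain ⟨k, hk, hh'⟩ := hh
  unfold World
  rw [Phi_none hq _ (by omega) (not_isTab_of_isHn hq hh') (not_isP_of_isHn hh') (by
      intro k' hk'
      have := isHn_unique hk' hh'
      unfold cut
      rw [if_neg (by omega)]
      omega), mix_ge (by omega), if_pos ⟨k, hk, hh'⟩]

theorem World_leaf (hq : WF q) (hN : q.N ≤ lo + 1) {j k : ℕ} {i : NIx} {B : ℕ} {z r : Str}
    (hE : q.E j = some (some k, i, B)) (hk : k < n) (hv : lo < (code j B z ++ r).length)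
    (hl : (code j B z ++ r).length = (code j B z).length * 2 ^ (par k).h) :
    World q n g lo hi X G x (code j B z ++ r) =
      lf (par k) i (World q n g lo hi X G x) z (code j B z).length r := by
  unfold World
  rw [Phi_eq hq, rule_leaf hq hE (by omega) (by unfold cut; rw [if_pos hk]; omega) hl]
  rfl

theorem World_val (hq : WF q) (hN : q.N ≤ lo + 1) {H : ℕ} (hg : g * 2 ^ H ≤ lo + 1)
    {j k : ℕ} {i : NIx} {B : ℕ} {z : Str} (hE : q.E j = some (some k, i, B)) (hk : n ≤ k)
    (hH : (par k).h ≤ H) (h1 : lo < clen (par k) j B z) (h2 : clen (par k) j B z ≤ hi) {v : Bool}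
    (hv : TV (par n) g x (rnk (code j B (nm (par k) z))) v) :
    val (par k) j B (World q n g lo hi X G x) z = xor v (sgn (par n) (par k)) := by
  apply val_leafQ (above_par hk) _ _ hv
  · by_contra hcon
    have h3 : (code j B (nm (par k) z)).length * 2 ^ (par k).h + 2 ^ (par k).h ≤ g * 2 ^ H := by
      calc (code j B (nm (par k) z)).length * 2 ^ (par k).h + 2 ^ (par k).h =
            ((code j B (nm (par k) z)).length + 1) * 2 ^ (par k).h := by ring
        _ ≤ g * 2 ^ (par k).h := Nat.mul_le_mul_right _ (by omega)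
        _ ≤ g * 2 ^ H := Nat.mul_le_mul_left _ (Nat.pow_le_pow_right (by norm_num) hH)
    have h4 : 1 ≤ 2 ^ (par k).h := Nat.one_le_two_pow
    unfold clen at h1
    omega
  · intro z' r hz' hlen
    have hl := clen_eq (P := par k) (j := j) (B := B) hz'
    rw [World_hid hq hN (by omega) (by omega) ⟨k, hk, isHn_code hE hlen⟩, pos_code hE hlen hk]

theorem World_mem (hq : WF q) (hX : Mem q X) (hlh : lo ≤ hi) (hN : q.N ≤ lo + 1) {H : ℕ}
    (hg : g * 2 ^ H ≤ lo + 1) (hH : ∀ j k i B, q.E j = some (some k, i, B) → (par k).h ≤ H)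
    (h : ∀ j k i B z, q.E j = some (some k, i, B) → n ≤ k → lo < clen (par k) j B z →
      clen (par k) j B z ≤ hi → TV (par n) g x (rnk (code j B (nm (par k) z)))
        (xor (cnt (par k) i (World q n g lo hi X G x) z) (sgn (par n) (par k)))) :
    Mem q (World q n g lo hi X G x) := by
  apply Phi_mem hq
  intro j k i B z hE hN' hc
  show val (par k) j B (World q n g lo hi X G x) z = cnt (par k) i (World q n g lo hi X G x) z
  by_cases hlo : clen (par k) j B z ≤ lo
  · have h1 : ∀ v : Str, v.length ≤ clen (par k) j B z → World q n g lo hi X G x v = X v :=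
      fun v hv => World_le hq hX hlh (by omega)
    rw [val_congr (X' := X) (fun v hv => h1 v (by omega)), hX.hid j k i B z hE hN',
      cnt_congr' (hq.goodH j k i B hE) (j := j) (X := X) (X' := World q n g lo hi X G x)
        (fun v hv => (h1 v (by omega)).symm)]
  · have hk : n ≤ k := by
      by_contra hcon
      unfold cut at hc
      rw [if_pos (by omega)] at hc
      omega
    unfold cut at hc
    rw [if_neg (by omega)] at hc
    rw [World_val hq hN hg hE hk (hH j k i B hE) (by omega) (by omega)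
      (h j k i B z hE hk (by omega) (by omega))]
    simp

theorem World_inA (hq : WF q) (hlh : lo ≤ hi) (hN : q.N ≤ lo + 1) {n0 : ℕ} {Y0 : Lang}
    (hX : InA n q n0 Y0 X) (hn0 : n0 ≤ lo + 1) (hm : Mem q (World q n g lo hi X G x)) :
    InA n q n0 Y0 (World q n g lo hi X G x) := by
  have h1 : ∀ v : Str, v.length ≤ lo → World q n g lo hi X G x v = X v :=
    fun v hv => World_le hq hX.mem hlh hv
  refine ⟨hm, ?_, ?_, ?_⟩
  · intro v hv
    rw [h1 v (by omega), hX.lt v hv]
  · intro j k i B z r hE hk hv hl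
    by_cases hlo : lo < (code j B z ++ r).length
    · exact World_leaf hq hN hE hk hlo hl
    · rw [h1 _ (by omega), hX.leaf j k i B z r hE hk hv hl]
      apply lf_congr (hq.goodH j k i B hE) hl
      intro v hv'
      apply (h1 v _).symm
      rw [List.length_append] at hlo
      omega
  · intro v hv hw
    by_cases hlo : lo < v.length
    · exact World_wit hq hN hlo hw
    · rw [h1 v (by omega), hX.wit v hv hw]

theorem World_congr (hq : WF q) {X' G' : Lang} {x' : List ℕ → Bool} (k0 : ℕ)
    (h1 : ∀ v : Str, v.length ≤ lo → X v = X' v)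
    (h2 : ∀ v : Str, lo < v.length → v.length ≤ k0 → ¬ isH q v → G v = G' v)
    (h3 : ∀ v : Str, lo < v.length → v.length ≤ k0 → v.length ≤ hi → isHge q n v →
      Sum.elim x id (pos q n g v) = Sum.elim x' id (pos q n g v)) :
    ∀ v : Str, v.length ≤ k0 →
      World q n g lo hi X G x v = World q n g lo hi X' G' x' v := by
  unfold World
  apply Phi_unique hq k0 (Phi_eq hq _)
  intro v hv hr
  by_cases hlo : v.length ≤ lo
  · rw [mix_lt (by omega), mix_lt (by omega), h1 v hlo]
  · rw [mix_ge (by omega), mix_ge (by omega)]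
    by_cases hh : isHge q n v
    · rw [if_pos hh, if_pos hh]
      apply h3 v (by omega) hv _ hh
      by_contra hcon
      obtain ⟨k, hk, j, i, B, z, r, hE, rfl, hl⟩ := hh
      by_cases hNN : q.N ≤ (code j B z ++ r).length
      · rw [rule_leaf hq hE hNN (by unfold cut; rw [if_neg (by omega)]; omega) hl] at hr
        simp at hr
      · rw [rule_low (by omega)] at hr
        simp at hr
    · rw [if_neg hh, if_neg hh]
      by_cases hw : isWlt n v
      · rw [if_pos hw, if_pos hw]
      · rw [if_neg hw, if_neg hw]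
        by_cases hH : isH q v
        · -- a canonical string of smaller type
          exfalso
          obtain ⟨k, j, i, B, z, r, hE, rfl, hl⟩ := hH
          have hk : k < n := by
            by_contra hcon
            exact hh ⟨k, by omega, isHn_code hE hl⟩
          by_cases hNN : q.N ≤ (code j B z ++ r).length
          · rw [rule_leaf hq hE hNN (by unfold cut; rw [if_pos hk]; omega) hl] at hr
            simp at hr
          · rw [rule_low (by omega)] at hr
            simp at hr
        · exact h2 v (by omega) hv hH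

/-- the contents which the trees must have -/
noncomputable def contH (q : QC) (n lo hi : ℕ) (X : Lang) (c : ℕ) : Bool := by
  classical
  exact if h : ∃ t : ℕ × ℕ × NIx × ℕ × Str, n ≤ t.2.1 ∧
      q.E t.1 = some (some t.2.1, t.2.2.1, t.2.2.2.1) ∧
      c = rnk (code t.1 t.2.2.2.1 (nm (par t.2.1) t.2.2.2.2)) ∧
      lo < clen (par t.2.1) t.1 t.2.2.2.1 t.2.2.2.2 ∧
      clen (par t.2.1) t.1 t.2.2.2.1 t.2.2.2.2 ≤ hi then
    xor (cnt (par h.choose.2.1) h.choose.2.2.1 X h.choose.2.2.2.2)
      (sgn (par n) (par h.choose.2.1)) else false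

theorem contH_code {j k : ℕ} {i : NIx} {B : ℕ} {z : Str} (hE : q.E j = some (some k, i, B))
    (hk : n ≤ k) (h1 : lo < clen (par k) j B z) (h2 : clen (par k) j B z ≤ hi) :
    contH q n lo hi X (rnk (code j B (nm (par k) z))) =
      xor (cnt (par k) i X z) (sgn (par n) (par k)) := by
  have h : ∃ t : ℕ × ℕ × NIx × ℕ × Str, n ≤ t.2.1 ∧
      q.E t.1 = some (some t.2.1, t.2.2.1, t.2.2.2.1) ∧
      rnk (code j B (nm (par k) z)) = rnk (code t.1 t.2.2.2.1 (nm (par t.2.1) t.2.2.2.2)) ∧
      lo < clen (par t.2.1) t.1 t.2.2.2.1 t.2.2.2.2 ∧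
      clen (par t.2.1) t.1 t.2.2.2.1 t.2.2.2.2 ≤ hi := ⟨(j, k, i, B, z), hk, hE, rfl, h1, h2⟩
  unfold contH
  rw [dif_pos h]
  obtain ⟨_, h3, h4, _, _⟩ := h.choose_spec
  obtain ⟨e1, e2⟩ := code_inj (rnk_inj _ _ h4)
  rw [← e1, hE] at h3
  simp only [Option.some.injEq, Prod.mk.injEq] at h3
  rw [← h3.1] at e2
  rw [← h3.1, ← h3.2.1, ← nm_inj e2]

/-- the content `c` only depends on the trees before -/
theorem contH_congr (hq : WF q) {X' G' : Lang} {x' : List ℕ → Bool} {c : ℕ}
    (h1 : ∀ v : Str, v.length ≤ lo → X v = X' v)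
    (h2 : ∀ v : Str, lo < v.length → ¬ isH q v → G v = G' v)
    (h3 : AgreeBelow (rtt (par n) c) x x') :
    contH q n lo hi (World q n g lo hi X G x) c =
      contH q n lo hi (World q n g lo hi X' G' x') c := by
  unfold contH
  split_ifs with h
  · obtain ⟨_, h4, h5, h6, h7⟩ := h.choose_spec
    congr 1
    apply cnt_congr (hq.goodH _ _ _ _ h4)
    intro v hv
    have hv' := pow_code_le (j := h.choose.1) hv
    refine World_congr hq v.length h1 (fun v hv1 hv2 hv3 => h2 v hv1 hv3) ?_ v le_rfl
    intro u hu1 hu2 hu3 hh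
    cases hp : pos q n g u with
    | inr b => rfl
    | inl p =>
        obtain ⟨j', k', i', B', z', r', ρ, a, _, hE', hu, hl, hrt, hlast⟩ := pos_last hh hp
        simp only [Sum.elim_inl]
        apply h3 _ _ hlast
        rw [h5]
        apply rt_lt_of_len hrt
        have h8 : (code j' B' z').length ≤ u.length := by
          rw [hu, List.length_append]; omega
        have h9 : (code h.choose.1 h.choose.2.2.2.1 h.choose.2.2.2.2).length ≤
            (code h.choose.1 h.choose.2.2.2.1 (nm (par h.choose.2.1) h.choose.2.2.2.2)).length := by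
          rw [code_length, code_length]
          have := length_nm (P := par h.choose.2.1) h.choose.2.2.2.2
          have h2 : (h.choose.2.2.2.2.length + 2) ^ (2 ^ h.choose.2.2.2.1) ≤
              ((nm (par h.choose.2.1) h.choose.2.2.2.2).length + 2) ^ (2 ^ h.choose.2.2.2.1) :=
            Nat.pow_le_pow_left (by omega) _
          omega
        omega
  · rfl

end

end Pool.Agent.Lib.Pa76659L
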